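import Pool.Agent.H93.CUBE.LStmts

/-!
# Cube project (MP_47888e_al), block LIMIT: module GHP

Horizontal pairs and gauge transforms.
-/

set_option autoImplicit false

open Polynomial Pool.CM

namespace Pool.H93.Cube

namespace GHP

variable {E : Type} [Field E] {m m' m'' : Type}

theorem mint_mul {O : Subring E} [Fintype m'] {U : Matrix m m' (LaurentSeries E)}
    {V : Matrix m' m'' (LaurentSeries E)} (hU : MInt O U) (hV : MInt O V) : MInt O (U * V) := by
  intro a b
  rw [Matrix.mul_apply]
  exact (IL O).sum_mem fun c _ => (IL O).mul_mem (hU a c) (hV c b)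

theorem mint_phi {O : Subring E} {φ : E →+* E} (hφ : ∀ x ∈ O, φ x ∈ O) (p : ℕ) (hp : p ≠ 0)
    {U : Matrix m m' (LaurentSeries E)} (hU : MInt O U) : MInt O (U.map (phiL φ p hp)) :=
  fun a b => phiL_mem_IL hφ p hp (hU a b)

theorem mint_nab {O : Subring E} {U : Matrix m m' (LaurentSeries E)} (hU : MInt O U) :
    MInt O (U.map nab) := fun a b => nab_mem_IL (hU a b)

theorem pl_mul {O : Subring E} {p M : ℕ} [Fintype m] [Fintype m']
    {U : Matrix m'' m (LaurentSeries E)} {Δ : Matrix m m' (LaurentSeries E)}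
    {V : Matrix m' m'' (LaurentSeries E)} (hU : MInt O U) (hΔ : ∀ a b, Δ a b ∈ pL O p M)
    (hV : MInt O V) (a b : m'') : (U * Δ * V) a b ∈ pL O p M := by
  rw [Matrix.mul_apply]
  refine AddSubgroup.sum_mem _ fun c _ => pL_mul_right ?_ (hV c b)
  rw [Matrix.mul_apply]
  exact AddSubgroup.sum_mem _ fun c' _ => pL_mul_left (hU a c') (hΔ c' c)

theorem mapNab_phi (φ : E →+* E) (p : ℕ) (hp : p ≠ 0) (U : Matrix m m' (LaurentSeries E)) :
    (U.map (phiL φ p hp)).map nab =
      (HahnSeries.C (p : E) : LaurentSeries E) • (U.map nab).map (phiL φ p hp) := by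
  ext1 a b
  simp only [Matrix.map_apply, Matrix.smul_apply, smul_eq_mul, nab_phiL]

variable [Fintype m] [DecidableEq m] [Fintype m'] [DecidableEq m']

theorem nab_inv {h : Matrix m m' (LaurentSeries E)} {h' : Matrix m' m (LaurentSeries E)}
    (hi : Inv2 h h') : h'.map nab = -(h' * h.map nab * h') := by
  have h1 := mapNab_mul h' h
  rw [hi.1] at h1
  have h2 : (1 : Matrix m' m' (LaurentSeries E)).map nab = 0 := by
    have := mapNab_cM (1 : Matrix m' m' E)
    rwa [cM_one] at this
  rw [h2] at h1
  have h3 : h'.map nab = h'.map nab * h * h' := by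
    rw [Matrix.mul_assoc, hi.2, Matrix.mul_one]
  rw [h3, ← Matrix.neg_mul]
  congr 1
  exact eq_neg_of_add_eq_zero_left h1.symm

/-- one place -/
theorem hp_gau {O : Subring E} {p : ℕ} {hp : p ≠ 0} {φ : E →+* E} (hφ : ∀ x ∈ O, φ x ∈ O)
    {M n : ℕ} {g Phi Psi : Matrix m m (LaurentSeries E)} {h : Matrix m m' (LaurentSeries E)}
    {h' : Matrix m' m (LaurentSeries E)} (hi : Inv2 h h') (hh : MInt O h) (hh' : MInt O h')
    (H : HP O p hp φ M n g Phi Psi) :
    HP O p hp φ M n (h' * h.map nab + h' * g * h) (h' * Phi * h.map (phiL φ p hp))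
      (h'.map (phiL φ p hp) * Psi * h) := by
  have hk := mint_phi hφ p hp hh
  have hk' := mint_phi hφ p hp hh'
  have hki : Inv2 (h.map (phiL φ p hp)) (h'.map (phiL φ p hp)) := hi.map (phiL φ p hp)
  refine ⟨mint_mul (mint_mul hh' H.iPhi) hk, mint_mul (mint_mul hk' H.iPsi) hh, ?_, ?_⟩
  · have key : ((h' * Phi * h.map (phiL φ p hp)).map nab +
        (h' * h.map nab + h' * g * h) * (h' * Phi * h.map (phiL φ p hp))) -
        ((HahnSeries.C (p : E) : LaurentSeries E) • (h' * Phi * h.map (phiL φ p hp) *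
          (h' * h.map nab + h' * g * h).map (phiL φ p hp))) =
        h' * ((Phi.map nab + g * Phi) - ((HahnSeries.C (p : E) : LaurentSeries E) •
          (Phi * g.map (phiL φ p hp)))) * h.map (phiL φ p hp) := by
      have e1 : (h' * Phi * h.map (phiL φ p hp)).map nab =
          -(h' * h.map nab * h') * Phi * h.map (phiL φ p hp) + h' * Phi.map nab *
            h.map (phiL φ p hp) + (HahnSeries.C (p : E) : LaurentSeries E) •
            (h' * Phi * (h.map nab).map (phiL φ p hp)) := by
        rw [mapNab_mul, mapNab_mul, nab_inv hi, mapNab_phi, Matrix.mul_smul, Matrix.add_mul]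
      have e2 : (h' * h.map nab + h' * g * h) * (h' * Phi * h.map (phiL φ p hp)) =
          h' * h.map nab * h' * Phi * h.map (phiL φ p hp) + h' * g * Phi *
            h.map (phiL φ p hp) := by
        rw [Matrix.add_mul]
        congr 1
        · simp only [Matrix.mul_assoc]
        · calc h' * g * h * (h' * Phi * h.map (phiL φ p hp)) =
              h' * g * (h * h') * Phi * h.map (phiL φ p hp) := by simp only [Matrix.mul_assoc]
            _ = _ := by rw [hi.2, Matrix.mul_one]
      have e3 : h' * Phi * h.map (phiL φ p hp) * (h' * h.map nab + h' * g * h).map (phiL φ p hp) =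
          h' * Phi * (h.map nab).map (phiL φ p hp) +
          h' * Phi * g.map (phiL φ p hp) * h.map (phiL φ p hp) := by
        have e4 : (h' * h.map nab + h' * g * h).map (phiL φ p hp) =
            h'.map (phiL φ p hp) * ((h.map nab).map (phiL φ p hp) +
              g.map (phiL φ p hp) * h.map (phiL φ p hp)) := by
          rw [Matrix.map_add _ (map_add _), Matrix.map_mul, Matrix.map_mul, Matrix.map_mul,
            Matrix.mul_add, Matrix.mul_assoc]
        rw [e4]
        calc h' * Phi * h.map (phiL φ p hp) * (h'.map (phiL φ p hp) *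
              ((h.map nab).map (phiL φ p hp) + g.map (phiL φ p hp) * h.map (phiL φ p hp))) =
            h' * Phi * (h.map (phiL φ p hp) * h'.map (phiL φ p hp)) *
              ((h.map nab).map (phiL φ p hp) + g.map (phiL φ p hp) * h.map (phiL φ p hp)) := by
              simp only [Matrix.mul_assoc]
          _ = _ := by
              rw [hki.2, Matrix.mul_one, Matrix.mul_add]
              simp only [Matrix.mul_assoc]
      rw [e1, e2, e3, Matrix.mul_sub, Matrix.mul_add, Matrix.sub_mul, Matrix.add_mul,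
        Matrix.mul_smul, Matrix.smul_mul, smul_add]
      simp only [Matrix.neg_mul, Matrix.mul_assoc]
      abel
    intro a b
    have h1 := pl_mul (a := a) (b := b) hh' H.hor hk
    rw [← Matrix.sub_apply, key]
    exact h1
  · have key : h' * Phi * h.map (phiL φ p hp) * (h'.map (phiL φ p hp) * Psi * h) -
        ((HahnSeries.C ((p : E) ^ n) : LaurentSeries E) • (1 : Matrix m' m' (LaurentSeries E))) =
        h' * (Phi * Psi - ((HahnSeries.C ((p : E) ^ n) : LaurentSeries E) •
          (1 : Matrix m m (LaurentSeries E)))) * h := by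
      have e1 : h' * Phi * h.map (phiL φ p hp) * (h'.map (phiL φ p hp) * Psi * h) =
          h' * (Phi * Psi) * h := by
        calc h' * Phi * h.map (phiL φ p hp) * (h'.map (phiL φ p hp) * Psi * h) =
            h' * Phi * (h.map (phiL φ p hp) * h'.map (phiL φ p hp)) * Psi * h := by
              simp only [Matrix.mul_assoc]
          _ = _ := by
              rw [hki.2, Matrix.mul_one]
              simp only [Matrix.mul_assoc]
      rw [e1, Matrix.mul_sub, Matrix.sub_mul, Matrix.mul_smul, Matrix.smul_mul, Matrix.mul_one,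
        hi.1]
    intro a b
    have h1 := pl_mul (a := a) (b := b) hh' H.mul hh
    rw [← Matrix.sub_apply, key]
    exact h1

end GHP

theorem GHP_thm (hEXG : EXGStmt) (_hEXF : EXFStmt) (hEXI : EXIStmt) : GHPStmt := by
  intro X E _ A hA m m' _ _ _ _ G H H' hi n hHP
  have h1 : X.Ev fun i => ∀ a b, ex E (H a b) ∈ IL (A.O i) :=
    Idx.Ev.all fun a => Idx.Ev.all fun b => hEXI X E A hA (H a b)
  have h2 : X.Ev fun i => ∀ a b, ex E (H' a b) ∈ IL (A.O i) :=
    Idx.Ev.all fun a => Idx.Ev.all fun b => hEXI X E A hA (H' a b)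
  have hI : Inv2 (H.map (ex E)) (H'.map (ex E)) := hi.map (ex E)
  rw [hEXG]
  refine ⟨((h1.and h2).and hHP.1).mono ?_, fun M => ((h1.and h2).and (hHP.2 M)).mono ?_⟩
  · rintro i ⟨⟨k1, k2⟩, k3⟩
    have k1' : MInt (A.O i) (H.map (ex E)) := k1
    have k2' : MInt (A.O i) (H'.map (ex E)) := k2
    intro a b
    exact (IL (A.O i)).add_mem (GHP.mint_mul k2' (GHP.mint_nab k1') a b)
      (GHP.mint_mul (GHP.mint_mul k2' k3) k1' a b)
  · rintro i ⟨⟨k1, k2⟩, Phi, Psi, k3⟩
    exact ⟨_, _, GHP.hp_gau (hA.phi_O i) hI k1 k2 k3⟩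

end Pool.H93.Cube
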