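import Pool.Agent.H38.CUBE.JJStmts2

/-!
# MP_47888e_al, block CONT/JJ part 2: module FRO (the Frobenius lift of `O[τ][λ]`)
-/

set_option autoImplicit false

open Polynomial

namespace Pool.CUBE

open Pool.CM Pool.H93.Cube

namespace FROh

variable {E : Type} [Field E]

theorem phB2_coeff (φ : E →+* E) {p : ℕ} (hp : 0 < p) (x : B2 E) (u w : ℕ) :
    ((phB2 φ p x).coeff u).coeff w =
      if p ∣ u ∧ p ∣ w then φ ((x.coeff (u / p)).coeff (w / p)) else 0 := by
  have h1 : phB2 φ p x = Polynomial.expand E[X] p (x.map (phiP φ p)) := rfl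
  rw [h1, Polynomial.coeff_expand hp]
  by_cases hu : p ∣ u
  · rw [if_pos hu, Polynomial.coeff_map, phiP_apply, Polynomial.coeff_expand hp]
    by_cases hw : p ∣ w
    · rw [if_pos hw, Polynomial.coeff_map, if_pos ⟨hu, hw⟩]
    · rw [if_neg hw, if_neg fun h => hw h.2]
  · rw [if_neg hu, if_neg fun h => hu h.1, Polynomial.coeff_zero]

theorem phB2_mono (φ : E →+* E) {p : ℕ} (u w : ℕ) (c : E) :
    phB2 φ p (monomial u (monomial w c)) = monomial (u * p) (monomial (w * p) (φ c)) := by
  change Polynomial.expand E[X] p ((monomial u (monomial w c)).map (phiP φ p)) = _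
  rw [Polynomial.map_monomial, Polynomial.expand_monomial, phiP_apply, Polynomial.map_monomial,
    Polynomial.expand_monomial]

theorem mono_mem (O : Subring E) (u w : ℕ) (c : E) (hc : c ∈ O) :
    (monomial u (monomial w c) : B2 E) ∈ O2 O := by
  intro a b
  rw [Polynomial.coeff_monomial]
  split_ifs
  · rw [Polynomial.coeff_monomial]
    split_ifs
    · exact hc
    · exact O.zero_mem
  · rw [Polynomial.coeff_zero]
    exact O.zero_mem

theorem b2_eq_sum (x : B2 E) :
    x = ∑ u ∈ x.support, ∑ w ∈ (x.coeff u).support,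
      (monomial u (monomial w ((x.coeff u).coeff w)) : B2 E) := by
  conv_lhs => rw [x.as_sum_support]
  refine Finset.sum_congr rfl fun u _ => ?_
  rw [← map_sum, ← (x.coeff u).as_sum_support]

theorem lift_add (S : Subring (B2 E)) (f : B2 E →+* B2 E) {p : ℕ} (hp : p.Prime)
    {x y : B2 E} (hx : x ∈ S) (hy : y ∈ S)
    (hx' : ∃ z ∈ S, f x = x ^ p + (p : B2 E) * z) (hy' : ∃ z ∈ S, f y = y ^ p + (p : B2 E) * z) :
    ∃ z ∈ S, f (x + y) = (x + y) ^ p + (p : B2 E) * z := by
  obtain ⟨a, ha, ea⟩ := hx'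
  obtain ⟨b, hb, eb⟩ := hy'
  obtain ⟨r, hr⟩ := exists_add_pow_prime_eq hp (⟨x, hx⟩ : S) (⟨y, hy⟩ : S)
  have hr' := congrArg (Subtype.val : S → B2 E) hr
  push_cast at hr'
  refine ⟨a + b - x * y * r, S.sub_mem (S.add_mem ha hb) (S.mul_mem (S.mul_mem hx hy) r.2), ?_⟩
  rw [map_add, ea, eb, hr']
  ring

end FROh

open FROh in
theorem fro_thm : FROStmt := by
  intro X E _ _ A hA i
  have hp : (X.p i).Prime := X.hp i
  have h4 := fun (x : B2 E) (u w : ℕ) => phB2_coeff (A.phi i) hp.pos x u w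
  refine ⟨?_, ?_, ?_, h4⟩
  · intro x hx u w
    rw [h4]
    split_ifs
    · exact hA.phi_O i _ (hx _ _)
    · exact (A.O i).zero_mem
  · intro x hx
    have hmono : ∀ u w : ℕ, ∃ z ∈ O2 (A.O i),
        phB2 (A.phi i) (X.p i) (monomial u (monomial w ((x.coeff u).coeff w))) =
          (monomial u (monomial w ((x.coeff u).coeff w)) : B2 E) ^ X.p i + (X.p i : B2 E) * z := by
      intro u w
      obtain ⟨y, hy, e⟩ := hA.phi_frob i _ (hx u w)
      refine ⟨monomial (u * X.p i) (monomial (w * X.p i) y), mono_mem _ _ _ _ hy, ?_⟩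
      rw [phB2_mono, Polynomial.monomial_pow, Polynomial.monomial_pow]
      have e2 : A.phi i ((x.coeff u).coeff w) = ((x.coeff u).coeff w) ^ X.p i +
          (X.p i : E) * y := by
        rw [pow_one] at e
        rw [← e]
        ring
      rw [e2, map_add, map_add]
      congr 1
      rw [← nsmul_eq_mul, ← nsmul_eq_mul, map_nsmul, map_nsmul]
    have key : ∀ (s : Finset (Σ _ : ℕ, ℕ)), (∑ q ∈ s,
        (monomial q.1 (monomial q.2 ((x.coeff q.1).coeff q.2)) : B2 E)) ∈ O2 (A.O i) ∧
        ∃ z ∈ O2 (A.O i), phB2 (A.phi i) (X.p i) (∑ q ∈ s,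
        (monomial q.1 (monomial q.2 ((x.coeff q.1).coeff q.2)) : B2 E)) =
        (∑ q ∈ s, (monomial q.1 (monomial q.2 ((x.coeff q.1).coeff q.2)) : B2 E)) ^ X.p i +
          (X.p i : B2 E) * z := by
      classical
      intro s
      induction s using Finset.induction_on with
      | empty =>
        refine ⟨by rw [Finset.sum_empty]; exact (O2 (A.O i)).zero_mem, 0,
          (O2 (A.O i)).zero_mem, ?_⟩
        rw [Finset.sum_empty, map_zero, zero_pow hp.ne_zero, mul_zero, add_zero]
      | insert a s ha ih =>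
        rw [Finset.sum_insert ha]
        refine ⟨(O2 (A.O i)).add_mem (mono_mem _ _ _ _ (hx _ _)) ih.1, ?_⟩
        exact lift_add _ _ hp (mono_mem _ _ _ _ (hx _ _)) ih.1 (hmono _ _) ih.2
    have h := (key (x.support.sigma fun u => (x.coeff u).support)).2
    rw [Finset.sum_sigma] at h
    rw [← b2_eq_sum x] at h
    exact h
  · intro m hm u w
    have e : algebraMap ℚ (B2 E) ((m : ℚ)⁻¹) = C (C ((m : E)⁻¹)) := by
      rw [Polynomial.algebraMap_apply, Polynomial.algebraMap_apply, map_inv₀, map_natCast]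
    rw [e, Polynomial.coeff_C]
    split_ifs
    · rw [Polynomial.coeff_C]
      split_ifs
      · exact hA.pol_O i 0 _ (hA.pol_inv i m hm)
      · exact (A.O i).zero_mem
    · rw [Polynomial.coeff_zero]
      exact (A.O i).zero_mem

end Pool.CUBE
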