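import Pool.Agent.H38.CUBE.JJStmts

/-!
# MP_47888e_al, block CONT/JJ: module RC, elementary properties of `Rc`
-/

set_option autoImplicit false

open Polynomial

namespace Pool.CUBE

open Pool.CM Pool.H93.Cube

namespace J_RC

variable {E : Type} [Field E]

theorem exP_C (c : E) : exP E (Polynomial.C c) = HahnSeries.C c := by
  ext k
  rcases lt_or_ge k 0 with hk | hk
  · rw [exP_coeff_neg _ _ hk, HahnSeries.C_apply, HahnSeries.coeff_single_of_ne hk.ne]
  · obtain ⟨n, rfl⟩ := Int.eq_ofNat_of_zero_le hk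
    rw [exP_coeff_nat, coeff_C, HahnSeries.C_apply]
    by_cases hn : n = 0
    · subst hn; simp
    · rw [if_neg hn, HahnSeries.coeff_single_of_ne (by omega)]

theorem exP_X : exP E (Polynomial.X) = HahnSeries.single 1 1 := by
  ext k
  rcases lt_or_ge k 0 with hk | hk
  · rw [exP_coeff_neg _ _ hk, HahnSeries.coeff_single_of_ne (by omega)]
  · obtain ⟨n, rfl⟩ := Int.eq_ofNat_of_zero_le hk
    rw [exP_coeff_nat, coeff_X]
    by_cases hn : n = 1
    · subst hn; simp
    · rw [if_neg (Ne.symm hn), HahnSeries.coeff_single_of_ne (by omega)]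

theorem affR_algebraMap (u v : E) (hu : u ≠ 0) (g : E[X]) :
    affR u v hu (algebraMap E[X] (RatFunc E) g) = algebraMap E[X] (RatFunc E) (affP u v g) := by
  have h : affR u v hu (algebraMap E[X] (RatFunc E) g) =
      RatFunc.map (affP u v) (affP_le u v hu) (algebraMap E[X] (RatFunc E) g) := by
    unfold affR
    rw [RatFunc.coe_mapRingHom_eq_coe_map]
  rw [h]
  have h1 := RatFunc.map_apply_div (affP u v) (affP_le u v hu) g 1
  simpa using h1

theorem affP_C (u v c : E) : affP u v (Polynomial.C c) = Polynomial.C c := by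
  simp [affP]

theorem affP_X (u v : E) : affP u v Polynomial.X = Polynomial.C u * Polynomial.X +
    Polynomial.C v := by
  simp [affP]

theorem lexp_algebraMap (N : ℤ) (g : E[X]) :
    lexp N (algebraMap E[X] (RatFunc E) g) = exP E (affP 1 (N : E) g) := by
  rw [lexp, RingHom.comp_apply, affR_algebraMap, ex_algebraMap]

theorem lexp_C (N : ℤ) (c : E) : lexp N (RatFunc.C c) = HahnSeries.C c := by
  rw [← RatFunc.algebraMap_C, lexp_algebraMap, affP_C, exP_C]

theorem lexp_X (N : ℤ) : lexp N (RatFunc.X : RatFunc E) = HahnSeries.single 1 1 +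
    HahnSeries.C (N : E) := by
  rw [← RatFunc.algebraMap_X, lexp_algebraMap, affP_X, map_add, map_mul, exP_C, exP_C, exP_X,
    map_one, one_mul]

/-- two ring homs on `E(x)` which agree on `E` and on `x` are equal -/
theorem ratHom_ext {R : Type} [Field R] (f g : RatFunc E →+* R)
    (h1 : ∀ c, f (RatFunc.C c) = g (RatFunc.C c)) (h2 : f RatFunc.X = g RatFunc.X) : f = g := by
  refine IsLocalization.ringHom_ext (nonZeroDivisors E[X]) ?_
  refine Polynomial.ringHom_ext (fun c => ?_) ?_
  · rw [RingHom.comp_apply, RingHom.comp_apply, RatFunc.algebraMap_C]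
    exact h1 c
  · rw [RingHom.comp_apply, RingHom.comp_apply, RatFunc.algebraMap_X]
    exact h2

theorem lexp_affR (N k : ℤ) : (lexp N).comp (affR 1 (k : E) one_ne_zero) = lexp (N + k) := by
  refine ratHom_ext _ _ (fun c => ?_) ?_
  · rw [RingHom.comp_apply, ← RatFunc.algebraMap_C, affR_algebraMap, affP_C, RatFunc.algebraMap_C,
      lexp_C, lexp_C]
  · rw [RingHom.comp_apply]
    conv_lhs => rw [← RatFunc.algebraMap_X]
    rw [affR_algebraMap, affP_X, map_add, map_mul, RatFunc.algebraMap_C, RatFunc.algebraMap_C,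
      RatFunc.algebraMap_X, map_add, map_mul, lexp_C, lexp_C, lexp_X, lexp_X]
    push_cast
    rw [map_one, one_mul, map_add, add_assoc]

end J_RC

theorem rc_thm : RCStmt := by
  intro E _ _
  refine ⟨?_, ?_, ?_, ?_, ?_, ?_⟩
  · intro j N r s
    rw [Rc, Rc, Rc, map_add, HahnSeries.coeff_add, mul_add]
  · intro j N x r
    rw [Rc, Rc, map_mul, J_RC.lexp_C, HahnSeries.C_mul_eq_smul, HahnSeries.coeff_smul, smul_eq_mul]
    ring
  · intro j N k r
    have h := RingHom.congr_fun (J_RC.lexp_affR (E := E) N k) r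
    rw [RingHom.comp_apply] at h
    rw [Rc, Rc, h]
  · intro j N r
    have h1 : (lexp N (RatFunc.X * r)).coeff (-(j : ℤ)) =
        (lexp N r).coeff (-((j + 1 : ℕ) : ℤ)) + (N : E) * (lexp N r).coeff (-(j : ℤ)) := by
      rw [map_mul, J_RC.lexp_X, add_mul, HahnSeries.coeff_add, HahnSeries.C_mul_eq_smul,
        HahnSeries.coeff_smul, smul_eq_mul]
      congr 1
      have h2 : -(j : ℤ) = -((j + 1 : ℕ) : ℤ) + 1 := by push_cast; ring
      rw [h2, HahnSeries.coeff_single_mul_add, one_mul]
    rw [Rc, Rc, Rc, h1, Nat.factorial_succ, pow_succ]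
    have h3 : ((j + 1 : ℕ) : E) ≠ 0 := Nat.cast_ne_zero.2 (Nat.succ_ne_zero j)
    have h4 : (j.factorial : E) ≠ 0 := Nat.cast_ne_zero.2 (Nat.factorial_ne_zero j)
    push_cast at h3 ⊢
    field_simp
    ring
  · intro N g
    rw [Rc, J_RC.lexp_algebraMap]
    have h1 : -((0 : ℕ) : ℤ) = ((0 : ℕ) : ℤ) := by simp
    rw [h1, exP_coeff_nat, Polynomial.coeff_zero_eq_eval_zero]
    have h2 : (affP 1 (N : E) g).eval 0 = g.eval (N : E) := by
      change (g.comp (Polynomial.C 1 * Polynomial.X + Polynomial.C (N : E))).eval 0 = _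
      rw [Polynomial.eval_comp]
      simp
    rw [h2]
    simp
  · intro N g j hj
    rw [Rc, J_RC.lexp_algebraMap, exP_coeff_neg _ _ (by omega), mul_zero]

end Pool.CUBE
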