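import Pool.Agent.H49.CUBE.F_PAC
import Pool.Agent.H49.CUBE.F_RSC

/-!
# MP_47888e_al, block CONT/JJ part 2: module MLF (one factor of the Mellin transform)
-/

set_option autoImplicit false

open Polynomial

namespace Pool.CUBE

open Pool.CM Pool.H93.Cube

namespace MLFh

variable {X : Idx} {E : Type} [Field E] (A : PF X E) (i : X.I)

/-- the factor `b + m X` -/
noncomputable def L (E : Type) [Field E] (x : ℤ × ℕ) : E[X] :=
  Polynomial.C (x.1 : E) + Polynomial.C (x.2 : E) * Polynomial.X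

theorem L_int (x : ℤ × ℕ) : L E x ∈ F_PAC.IntS A i :=
  (F_PAC.IntS A i).add_mem (F_PAC.C_mem A i (intCast_mem (A.O i) _))
    ((F_PAC.IntS A i).mul_mem (F_PAC.C_mem A i (natCast_mem (A.O i) _)) (F_PAC.X_mem A i))

theorem L_deg (x : ℤ × ℕ) : (L E x).natDegree ≤ 1 := by
  unfold L
  refine (Polynomial.natDegree_add_le _ _).trans (max_le ?_ ?_)
  · rw [Polynomial.natDegree_C]
    exact Nat.zero_le _
  · exact (Polynomial.natDegree_C_mul_le _ _).trans Polynomial.natDegree_X_le

theorem prod_int (T : Finset (ℤ × ℕ)) : (∏ x ∈ T, L E x) ∈ F_PAC.IntS A i :=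
  (F_PAC.IntS A i).prod_mem fun x _ => L_int A i x

theorem prod_deg (T : Finset (ℤ × ℕ)) : (∏ x ∈ T, L E x).natDegree ≤ T.card := by
  refine (Polynomial.natDegree_prod_le _ _).trans ?_
  rw [Finset.card_eq_sum_ones]
  exact Finset.sum_le_sum fun x _ => L_deg x

theorem qq_eq (c D : ℕ) : qq E c D =
    ∏ x ∈ Finset.Icc (-(c : ℤ)) c ×ˢ Finset.Icc 1 D, L E x := by
  rw [Finset.prod_product]
  rfl

theorem card_eq (c D : ℕ) :
    (Finset.Icc (-(c : ℤ)) c ×ˢ Finset.Icc 1 D).card = (2 * c + 1) * D := by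
  rw [Finset.card_product, Int.card_Icc, Nat.card_Icc]
  congr 1
  omega

theorem qq_int (c D : ℕ) : A.Int i (qq E c D) := by
  rw [qq_eq]
  exact prod_int A i _

theorem qq_deg (c D : ℕ) : (qq E c D).natDegree ≤ (2 * c + 1) * D := by
  rw [qq_eq, ← card_eq]
  exact prod_deg _

theorem qq_div (c D : ℕ) (b : ℤ) (m : ℕ) (hb : |b| ≤ (c : ℤ)) (h1 : 1 ≤ m) (hm : m ≤ D) :
    ∃ g : E[X], A.Int i g ∧ g.natDegree ≤ (2 * c + 1) * D ∧ qq E c D = L E (b, m) * g := by
  classical
  have hmem : (b, m) ∈ Finset.Icc (-(c : ℤ)) c ×ˢ Finset.Icc 1 D := by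
    rw [Finset.mem_product, Finset.mem_Icc, Finset.mem_Icc]
    exact ⟨abs_le.1 hb, h1, hm⟩
  refine ⟨∏ x ∈ (Finset.Icc (-(c : ℤ)) c ×ˢ Finset.Icc 1 D).erase (b, m), L E x,
    prod_int A i _, ?_, ?_⟩
  · refine (prod_deg _).trans ?_
    rw [← card_eq]
    exact Finset.card_erase_le
  · rw [qq_eq, Finset.mul_prod_erase _ _ hmem]

theorem nat_inv_mem [CharZero E] (hA : A.Ax) {n : ℕ} (hn : ¬ X.p i ∣ n) :
    ((n : E))⁻¹ ∈ A.O i := hA.pol_O i 0 _ (hA.pol_inv i n hn)

theorem qq_pa (M c D : ℕ) : PA A i M ((2 * c + 1) * D) (algebraMap E[X] (RatFunc E) (qq E c D)) :=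
  F_PAC.pa_alg A i (qq_int A i c D) (qq_deg c D)

end MLFh

open MLFh in
theorem mlf_thm : MLFStmt := by
  intro X E _ _ A hA i C D M c hC hc B m f h hB1 hB hf hm
  have hp : (X.p i).Prime := X.hp i
  have hp0 : (X.p i : RatFunc E) ≠ 0 := by
    rw [← map_natCast (RatFunc.C (K := E)) (X.p i)]
    exact (_root_.map_ne_zero _).2 h
  have e0 : affR (X.p i : E) (f : E) h (((B : RatFunc E) + (m : RatFunc E) * RatFunc.X)⁻¹) =
      ((((B : ℤ) + (m : ℤ) * f : ℤ) : RatFunc E) +
        (X.p i : RatFunc E) * ((m : ℤ) : RatFunc E) * RatFunc.X)⁻¹ := by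
    rw [map_inv₀, map_add, map_mul, map_natCast, map_natCast, F_RSC.affR_X, map_natCast,
      map_intCast]
    push_cast
    congr 1
    ring
  rw [e0]
  rcases Nat.eq_zero_or_pos m with hm0 | hm1
  · subst hm0
    have e1 : (X.p i : RatFunc E) * ((((B : ℤ) + ((0 : ℕ) : ℤ) * f : ℤ) : RatFunc E) +
        (X.p i : RatFunc E) * (((0 : ℕ) : ℤ) : RatFunc E) * RatFunc.X)⁻¹ =
        RatFunc.C ((X.p i : E) * (B : E)⁻¹) := by
      rw [map_mul, map_inv₀, map_natCast, map_natCast]
      push_cast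
      rw [zero_mul, add_zero, mul_zero, zero_mul, add_zero]
    rw [e1]
    have hx : (X.p i : E) * (B : E)⁻¹ ∈ A.O i := by
      by_cases hd : X.p i ∣ B
      · obtain ⟨b1, rfl⟩ := hd
        have hb1 : ¬ X.p i ∣ b1 := by
          intro hd
          have h2 : b1 ≤ C := by
            by_contra hlt
            push Not at hlt
            have h3 : C * X.p i < X.p i * b1 := by
              rw [mul_comm C]
              exact Nat.mul_lt_mul_of_pos_left hlt hp.pos
            omega
          have h4 : 0 < b1 := by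
            rcases Nat.eq_zero_or_pos b1 with h5 | h5
            · subst h5
              simp at hB1
            · exact h5
          have := Nat.le_of_dvd h4 hd
          omega
        have e2 : (X.p i : E) * ((X.p i * b1 : ℕ) : E)⁻¹ = (b1 : E)⁻¹ := by
          push_cast
          rw [mul_inv, ← mul_assoc, mul_inv_cancel₀ h, one_mul]
        rw [e2]
        exact nat_inv_mem A i hA hb1
      · exact (A.O i).mul_mem (natCast_mem (A.O i) _) (nat_inv_mem A i hA hd)
    refine F_PAC.pa_mono A i (d := (2 * c + 1) * D + 0) (by omega) ?_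
    exact F_PAC.pa_mul A i (qq_pa A i M c D) (F_PAC.pa_C A i hx)
  · by_cases hd : (X.p i : ℤ) ∣ (B : ℤ) + (m : ℤ) * f
    · obtain ⟨b, hb⟩ := hd
      rw [hb]
      have hbc : |b| ≤ (c : ℤ) := by
        have h1 : (X.p i : ℤ) * |b| ≤ (X.p i : ℤ) * ((C * (1 + D) : ℕ) : ℤ) := by
          have h2 : (X.p i : ℤ) * |b| = |(X.p i : ℤ) * b| := by
            rw [abs_mul, Nat.abs_cast]
          rw [h2, ← hb]
          refine (abs_add_le _ _).trans ?_
          rw [abs_mul, Nat.abs_cast, Nat.abs_cast]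
          have h3 : (m : ℤ) * |f| ≤ (D : ℤ) * ((C * X.p i : ℕ) : ℤ) :=
            mul_le_mul (by exact_mod_cast hm) hf (abs_nonneg _) (by positivity)
          have h4 : (B : ℤ) ≤ ((C * X.p i : ℕ) : ℤ) := by exact_mod_cast hB
          push_cast at h3 h4 ⊢
          nlinarith
        have h5 : |b| ≤ ((C * (1 + D) : ℕ) : ℤ) :=
          le_of_mul_le_mul_left h1 (by exact_mod_cast hp.pos)
        exact h5.trans (by exact_mod_cast hc)
      obtain ⟨g, hg, hgd, hq⟩ := qq_div (E := E) A i c D b m hbc hm1 hm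
      have hL : algebraMap E[X] (RatFunc E) (L E (b, m)) =
          (b : RatFunc E) + (m : RatFunc E) * RatFunc.X := by
        unfold L
        rw [map_add, map_mul, RatFunc.algebraMap_C, RatFunc.algebraMap_C, RatFunc.algebraMap_X,
          map_intCast, map_natCast]
      have hL0 : algebraMap E[X] (RatFunc E) (L E (b, m)) ≠ 0 := by
        intro h0
        have h1 : L E (b, m) = 0 :=
          (IsFractionRing.injective E[X] (RatFunc E)) (by rw [h0, map_zero])
        have h2 := congrArg (fun g : E[X] => g.coeff 1) h1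
        simp only [L, Polynomial.coeff_add, Polynomial.coeff_C_mul, Polynomial.coeff_X_one,
          mul_one, Polynomial.coeff_zero] at h2
        rw [Polynomial.coeff_C, if_neg one_ne_zero, zero_add] at h2
        exact (Nat.cast_ne_zero.2 (by omega)) h2
      have e2 : algebraMap E[X] (RatFunc E) (qq E c D) *
          ((X.p i : RatFunc E) * ((((X.p i : ℤ) * b : ℤ) : RatFunc E) +
            (X.p i : RatFunc E) * ((m : ℤ) : RatFunc E) * RatFunc.X)⁻¹) =
          algebraMap E[X] (RatFunc E) g := by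
        have e3 : (((X.p i : ℤ) * b : ℤ) : RatFunc E) +
            (X.p i : RatFunc E) * ((m : ℤ) : RatFunc E) * RatFunc.X =
            (X.p i : RatFunc E) * algebraMap E[X] (RatFunc E) (L E (b, m)) := by
          rw [hL]
          push_cast
          ring
        rw [e3, hq, map_mul]
        field_simp
      rw [e2]
      exact F_PAC.pa_mono A i (by omega) (F_PAC.pa_alg A i hg hgd)
    · have h1 := F_PAC.pa_inv A i (M := M) hA _ (m : ℤ) hd
      refine F_PAC.pa_mul A i (qq_pa A i M c D) ?_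
      have h2 : PA A i M 0 (X.p i : RatFunc E) := by
        have h3 := F_PAC.pa_C A i (M := M) (natCast_mem (A.O i) (X.p i))
        rwa [map_natCast] at h3
      have h4 := F_PAC.pa_mul A i h2 h1
      rwa [Nat.zero_add] at h4

end Pool.CUBE
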