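import Pool.Agent.H41.CUBE.TStmts

/-!
# Cube project, block TAME, module FERM: the generic Fermat pencil is nondegenerate
-/

set_option autoImplicit false

open Finset MvPolynomial

namespace Pool.CUBE

namespace FERM

variable {n : ℕ}

theorem coeff_ez {A : Type} [CommRing A] (i : Fin (n + 1)) (g : Poly n A)
    (a : Fin (n + 1) →₀ ℕ) : coeff a (ez i g) = (a i : A) * coeff a g := by
  classical
  induction g using MvPolynomial.induction_on' with
  | add g1 g2 h1 h2 => rw [map_add, coeff_add, coeff_add, h1, h2, mul_add]
  | monomial b s =>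
    rw [ez_monomial, coeff_monomial, coeff_monomial]
    split_ifs with h
    · rw [h]
    · rw [mul_zero]

theorem ez_map {A B : Type} [CommRing A] [CommRing B] (f : A →+* B) (i : Fin (n + 1))
    (g : Poly n A) : ez i (map f g) = map f (ez i g) := by
  ext a
  rw [coeff_ez, coeff_map, coeff_map, coeff_ez, map_mul, map_natCast]

theorem X_pow_eq {A : Type} [CommRing A] (i : Fin (n + 1)) (D : ℕ) :
    (X i ^ D : Poly n A) = monomial (Finsupp.single i D) 1 := by
  rw [X_pow_eq_monomial]

theorem ez_ferm {E : Type} [Field E] (D : ℕ) (P0 : Poly n E) (i : Fin (n + 1)) :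
    ez i (ferm D P0) = map (algebraMap E (RatFunc E)) (ez i P0) +
      C (RatFunc.X * (D : RatFunc E)) * monomial (Finsupp.single i D) 1 := by
  classical
  have h1 : ez i (∑ j : Fin (n + 1), (X j ^ D : Poly n (RatFunc E))) =
      monomial (Finsupp.single i D) (D : RatFunc E) := by
    rw [map_sum, Finset.sum_eq_single i]
    · rw [X_pow_eq, ez_monomial, mul_one, Finsupp.single_eq_same]
    · intro j _ hj
      rw [X_pow_eq, ez_monomial, mul_one, Finsupp.single_eq_of_ne (Ne.symm hj), Nat.cast_zero,
        monomial_zero]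
    · intro h; exact absurd (Finset.mem_univ i) h
  have h2 : ez i (C RatFunc.X * ∑ j : Fin (n + 1), (X j ^ D : Poly n (RatFunc E))) =
      C RatFunc.X * ez i (∑ j : Fin (n + 1), (X j ^ D : Poly n (RatFunc E))) := by
    rw [← smul_eq_C_mul, Derivation.map_smul, smul_eq_C_mul]
  rw [ferm, map_add, h2, h1, ez_map, C_mul_monomial, C_mul_monomial, mul_one]

/-- `x + N` is invertible -/
theorem det_ne {E : Type} [Field E] {J : Type} [Fintype J] [DecidableEq J] (N : Matrix J J E) :
    (Matrix.scalar J (RatFunc.X : RatFunc E) + N.map (algebraMap E (RatFunc E))).det ≠ 0 := by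
  have h1 : (Matrix.scalar J (RatFunc.X : RatFunc E) + N.map (algebraMap E (RatFunc E))) =
      Matrix.scalar J (RatFunc.X : RatFunc E) - (-N).map (algebraMap E (RatFunc E)) := by
    ext i j
    simp
  rw [h1, ← Matrix.eval_charpoly, Matrix.charpoly_map, Polynomial.eval_map]
  intro h0
  have ht : Transcendental E (RatFunc.X : RatFunc E) := RatFunc.transcendental_X
  exact ht ⟨(-N).charpoly, (Matrix.charpoly_monic _).ne_zero, h0⟩

end FERM

theorem FERM_proof : FERMStmt := by
  classical
  intro E _ _ n D hD P0 hP0 m a ha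
  by_cases hred : ∃ i, D ≤ a i
  swap
  · push Not at hred
    refine ⟨fun _ => 0, monomial a 1, ?_, ?_, ?_, ?_, ?_, ?_⟩
    · simp
    · intro i b hb; exact absurd (coeff_zero b) hb
    · intro b hb
      rw [coeff_monomial] at hb
      split_ifs at hb with h
      · rw [← h]; exact ha
      · exact absurd rfl hb
    · intro b hb
      rw [coeff_monomial] at hb
      split_ifs at hb with h
      · rw [← h]; exact hred
      · exact absurd rfl hb
    · intro i b; exact AddSubgroup.mem_top _
    · intro b; exact AddSubgroup.mem_top _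
  -- the nonreduced monomials
  let J : Type := {a : Fin (n + 1) →₀ ℕ // a.degree + (n + 1) = D * (m + 1) ∧ ∃ i, D ≤ a i}
  have hJfin : Finite J := by
    have hs : Set.Finite {a : Fin (n + 1) →₀ ℕ | a.degree = D * (m + 1) - (n + 1)} :=
      Finsupp.finite_of_degree_eq _
    exact Set.Finite.subset hs fun b hb => by
      have := hb.1
      change b.degree = D * (m + 1) - (n + 1)
      omega
  have : Fintype J := Fintype.ofFinite J
  have hi : ∀ c : J, ∃ i, D ≤ c.1 i := fun c => c.2.2
  choose i hi using hi
  have hDE : (D : E) ≠ 0 := Nat.cast_ne_zero.2 hD.ne'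
  have hDK : (D : RatFunc E) ≠ 0 := by
    have : algebraMap E (RatFunc E) (D : E) ≠ 0 :=
      (map_ne_zero_iff _ (algebraMap E (RatFunc E)).injective).2 hDE
    rwa [map_natCast] at this
  -- the exponent of the cofactor
  let s : J → (Fin (n + 1) →₀ ℕ) := fun c => c.1 - Finsupp.single (i c) D
  have hs : ∀ c : J, Finsupp.single (i c) D + s c = c.1 := by
    intro c
    refine add_tsub_cancel_of_le ?_
    rw [Finsupp.single_le_iff]
    exact hi c
  have hsd : ∀ c : J, D + (s c).degree = c.1.degree := by
    intro c
    have := congrArg Finsupp.degree (hs c)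
    rwa [map_add, Finsupp.degree_single] at this
  let u : J → Poly n E := fun c => C (D : E)⁻¹ * (ez (i c) P0 * monomial (s c) 1)
  have hu : ∀ (c : J) (b : Fin (n + 1) →₀ ℕ), coeff b (u c) ≠ 0 →
      b.degree + (n + 1) = D * (m + 1) := by
    intro c b hb
    have hb' : coeff b (C (D : E)⁻¹ * (ez (i c) P0 * monomial (s c) 1)) ≠ 0 := hb
    rw [coeff_C_mul] at hb'
    have h1 := right_ne_zero_of_mul hb'
    rw [coeff_mul_monomial'] at h1
    split_ifs at h1 with h2
    · rw [mul_one, FERM.coeff_ez] at h1
      have h3 : (b - s c).degree = D := by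
        have h := hP0 (right_ne_zero_of_mul h1)
        have h' : Finsupp.degree (b - s c) = Finsupp.weight (1 : Fin (n + 1) → ℕ) (b - s c) :=
          DFunLike.congr_fun Finsupp.degree_eq_weight_one _
        exact h'.trans h
      have h4 : (b - s c).degree + (s c).degree = b.degree := by
        rw [← map_add, tsub_add_cancel_of_le h2]
      have h5 := c.2.1
      have h6 := hsd c
      omega
    · exact absurd rfl h1
  -- the reduced part
  let r : J → Poly n E := fun c => u c - ∑ b : J, monomial b.1 (coeff b.1 (u c))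
  have hr : ∀ (c : J) (b : Fin (n + 1) →₀ ℕ), coeff b (r c) ≠ 0 →
      b.degree + (n + 1) = D * (m + 1) ∧ ∀ k, b k < D := by
    intro c b hb
    have hsum : coeff b (∑ b : J, monomial b.1 (coeff b.1 (u c)) : Poly n E) =
        if b.degree + (n + 1) = D * (m + 1) ∧ ∃ i, D ≤ b i then coeff b (u c) else 0 := by
      rw [coeff_sum]
      simp only [coeff_monomial]
      split_ifs with h
      · rw [Finset.sum_eq_single (⟨b, h⟩ : J)]
        · rw [if_pos rfl]
        · intro b' _ hb'
          exact if_neg fun h' => hb' (Subtype.ext h')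
        · intro h'; exact absurd (Finset.mem_univ _) h'
      · refine Finset.sum_eq_zero fun b' _ => if_neg fun h' => h ?_
        rw [← h']; exact b'.2
    have hb' : coeff b (u c - ∑ b : J, monomial b.1 (coeff b.1 (u c))) ≠ 0 := hb
    rw [coeff_sub, hsum] at hb'
    split_ifs at hb' with h
    · exact absurd (sub_self _) hb'
    · rw [sub_zero] at hb'
      have h1 := hu c b hb'
      refine ⟨h1, fun k => ?_⟩
      by_contra hk
      exact h ⟨h1, k, not_lt.1 hk⟩
  let N : Matrix J J E := Matrix.of fun b c => coeff b.1 (u c)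
  let M : Matrix J J (RatFunc E) := Matrix.scalar J (RatFunc.X : RatFunc E) +
    N.map (algebraMap E (RatFunc E))
  have hM : IsUnit M.det := isUnit_iff_ne_zero.2 (FERM.det_ne N)
  have hMM : M * M⁻¹ = 1 := Matrix.mul_nonsing_inv M hM
  -- the key identity
  have key : ∀ c : J, C (D : RatFunc E)⁻¹ * (ez (i c) (ferm D P0) * monomial (s c) 1) =
      ∑ b : J, C (M b c) * monomial b.1 1 + map (algebraMap E (RatFunc E)) (r c) := by
    intro c
    have h1 : ∑ b : J, (C (M b c) * monomial b.1 1 : Poly n (RatFunc E)) =
        C RatFunc.X * monomial c.1 1 +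
        ∑ b : J, monomial b.1 (algebraMap E (RatFunc E) (coeff b.1 (u c))) := by
      have : ∀ b : J, (C (M b c) * monomial b.1 1 : Poly n (RatFunc E)) =
          (if b = c then C RatFunc.X * monomial c.1 1 else 0) +
          monomial b.1 (algebraMap E (RatFunc E) (coeff b.1 (u c))) := by
        intro b
        have hMb : M b c = (if b = c then RatFunc.X else 0) +
            algebraMap E (RatFunc E) (coeff b.1 (u c)) := by
          change (Matrix.scalar J (RatFunc.X : RatFunc E) +
            N.map (algebraMap E (RatFunc E))) b c = _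
          rw [Matrix.add_apply, Matrix.scalar_apply, Matrix.diagonal_apply]
          rfl
        rw [hMb]
        split_ifs with h
        · subst h
          rw [C_add, add_mul, C_mul_monomial, C_mul_monomial, mul_one, mul_one]
        · rw [zero_add, zero_add, C_mul_monomial, mul_one]
      rw [Finset.sum_congr rfl fun b _ => this b, Finset.sum_add_distrib, Finset.sum_ite_eq',
        if_pos (Finset.mem_univ _)]
    have h2 : map (algebraMap E (RatFunc E)) (r c) = map (algebraMap E (RatFunc E)) (u c) -
        ∑ b : J, monomial b.1 (algebraMap E (RatFunc E) (coeff b.1 (u c))) := by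
      change map (algebraMap E (RatFunc E)) (u c - ∑ b : J, monomial b.1 (coeff b.1 (u c))) = _
      rw [map_sub, map_sum]
      congr 1
      exact Finset.sum_congr rfl fun b _ => map_monomial _ _ _
    have h3 : map (algebraMap E (RatFunc E)) (u c) = C (D : RatFunc E)⁻¹ *
        (map (algebraMap E (RatFunc E)) (ez (i c) P0) * monomial (s c) 1) := by
      change map (algebraMap E (RatFunc E)) (C (D : E)⁻¹ * (ez (i c) P0 * monomial (s c) 1)) = _
      rw [map_mul, map_mul, map_C, map_monomial, map_one, map_inv₀, map_natCast]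
    have h4 : (C (D : RatFunc E)⁻¹ * (C (RatFunc.X * (D : RatFunc E)) *
        monomial (Finsupp.single (i c) D) 1 * monomial (s c) 1) : Poly n (RatFunc E)) =
        C RatFunc.X * monomial c.1 1 := by
      rw [mul_assoc, monomial_mul, hs c, one_mul, ← mul_assoc, ← C_mul]
      congr 2
      field_simp
    rw [h1, h2, h3, FERM.ez_ferm, add_mul, mul_add, h4]
    ring
  -- the result
  let a' : J := ⟨a, ha, hred⟩
  refine ⟨fun k => ∑ c : J, if i c = k then C (M⁻¹ c a' * (D : RatFunc E)⁻¹) * monomial (s c) 1
    else 0, - ∑ c : J, C (M⁻¹ c a') * map (algebraMap E (RatFunc E)) (r c), ?_, ?_, ?_, ?_, ?_, ?_⟩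
  · have h1 : ∑ k, ez k (ferm D P0) * (∑ c : J, if i c = k then
        C (M⁻¹ c a' * (D : RatFunc E)⁻¹) * monomial (s c) 1 else 0) =
        ∑ c : J, C (M⁻¹ c a') * (C (D : RatFunc E)⁻¹ *
          (ez (i c) (ferm D P0) * monomial (s c) 1)) := by
      simp only [Finset.mul_sum]
      rw [Finset.sum_comm]
      refine Finset.sum_congr rfl fun c _ => ?_
      rw [Finset.sum_eq_single (i c)]
      · rw [if_pos rfl, C_mul]
        ring
      · intro k _ hk
        rw [if_neg (Ne.symm hk), mul_zero]
      · intro h; exact absurd (Finset.mem_univ _) h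
    have h2 : ∑ c : J, C (M⁻¹ c a') * ∑ b : J, (C (M b c) * monomial b.1 1 : Poly n (RatFunc E)) =
        monomial a 1 := by
      have h3 : ∀ b : J, ∑ c : J, M b c * M⁻¹ c a' = if b = a' then 1 else 0 := by
        intro b
        have := congrFun (congrFun hMM b) a'
        rwa [Matrix.mul_apply, Matrix.one_apply] at this
      simp only [Finset.mul_sum]
      rw [Finset.sum_comm]
      have h4 : ∀ b : J, ∑ c : J, C (M⁻¹ c a') * (C (M b c) * monomial b.1 1 :
          Poly n (RatFunc E)) = if b = a' then monomial a 1 else 0 := by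
        intro b
        have : ∀ c : J, C (M⁻¹ c a') * (C (M b c) * monomial b.1 1 : Poly n (RatFunc E)) =
            C (M b c * M⁻¹ c a') * monomial b.1 1 := by
          intro c; rw [C_mul]; ring
        rw [Finset.sum_congr rfl fun c _ => this c, ← Finset.sum_mul, ← map_sum, h3 b]
        split_ifs with h
        · rw [h, C_1, one_mul]
        · rw [C_0, zero_mul]
      rw [Finset.sum_congr rfl fun b _ => h4 b, Finset.sum_ite_eq', if_pos (Finset.mem_univ _)]
    rw [h1, Finset.sum_congr rfl fun c _ => by rw [key c, mul_add], Finset.sum_add_distrib, h2]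
    ring
  · intro k b hb
    rw [coeff_sum] at hb
    obtain ⟨c, -, hc⟩ := Finset.exists_ne_zero_of_sum_ne_zero hb
    split_ifs at hc with h
    · rw [coeff_C_mul, coeff_monomial] at hc
      split_ifs at hc with h'
      · rw [← h']
        have h5 := c.2.1
        have h6 := hsd c
        have h7 : D * (m + 1) = D * m + D := by ring
        omega
      · exact absurd (mul_zero _) hc
    · exact absurd (coeff_zero b) hc
  · intro b hb
    rw [coeff_neg, neg_ne_zero, coeff_sum] at hb
    obtain ⟨c, -, hc⟩ := Finset.exists_ne_zero_of_sum_ne_zero hb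
    rw [coeff_C_mul, coeff_map] at hc
    exact (hr c b fun h => right_ne_zero_of_mul hc (by rw [h, map_zero])).1
  · intro b hb
    rw [coeff_neg, neg_ne_zero, coeff_sum] at hb
    obtain ⟨c, -, hc⟩ := Finset.exists_ne_zero_of_sum_ne_zero hb
    rw [coeff_C_mul, coeff_map] at hc
    exact (hr c b fun h => right_ne_zero_of_mul hc (by rw [h, map_zero])).2
  · intro k b; exact AddSubgroup.mem_top _
  · intro b; exact AddSubgroup.mem_top _

end Pool.CUBE
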