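import Pool.Agent.H33.CUBE.JR

/-!
# Cube project, block TAME, part J: module JE (`J(e) = 1`)
-/

set_option autoImplicit false

open Finset MvPolynomial Pool.CM

namespace Pool.CUBE

namespace JEh

section gen
variable {n : ℕ} {A : Type} [CommRing A]

theorem faceP_monomial (a : Fin (n + 2) →₀ ℕ) (r : A) :
    faceP (monomial a r : Poly (n + 1) A) = if a 0 = 0 then monomial a.tail r else 0 := by
  rw [faceP, aeval_monomial, Finsupp.prod_fintype _ _ (fun i => pow_zero _), Fin.prod_univ_succ]
  simp only [Fin.cases_zero, Fin.cases_succ]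
  split_ifs with h
  · rw [h, pow_zero, one_mul, monomial_eq, Finsupp.prod_fintype _ _ (fun i => pow_zero _)]
    rfl
  · rw [zero_pow h, zero_mul, mul_zero]

theorem faceP_add (f g : Poly (n + 1) A) : faceP (f + g) = faceP f + faceP g := map_add _ _ _

theorem faceP_mul (f g : Poly (n + 1) A) : faceP (f * g) = faceP f * faceP g := map_mul _ _ _

theorem faceP_sub (f g : Poly (n + 1) A) : faceP (f - g) = faceP f - faceP g := map_sub _ _ _

theorem faceP_pow (f : Poly (n + 1) A) (k : ℕ) : faceP (f ^ k) = faceP f ^ k := map_pow _ _ _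

theorem faceP_C (c : A) : faceP (C c : Poly (n + 1) A) = C c := by
  rw [faceP, aeval_C]; rfl

theorem faceP_rename (h : Poly n A) : faceP (rename Fin.succ h) = h := by
  rw [faceP, aeval_rename]
  have : (Fin.cases 0 X : Fin (n + 2) → Poly n A) ∘ Fin.succ = X := by
    funext i; simp
  rw [this]
  exact aeval_X_left_apply h

theorem faceP_Sg : faceP (Sg (n + 1) A) = Sg n A := by
  rw [faceP, Sg, map_sum, Fin.sum_univ_succ, Sg]
  simp only [aeval_X, Fin.cases_zero, Fin.cases_succ, zero_add]

theorem faceP_map {B : Type} [CommRing B] (f : A →+* B) (P : Poly (n + 1) A) :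
    faceP (map f P) = map f (faceP P) := by
  induction P using MvPolynomial.induction_on' with
  | add g1 g2 h1 h2 => rw [map_add, faceP_add, faceP_add, map_add, h1, h2]
  | monomial a r =>
    rw [map_monomial, faceP_monomial, faceP_monomial]
    split_ifs
    · rw [map_monomial]
    · rw [map_zero]

theorem faceP_hom {D : ℕ} {P : Poly (n + 1) A} (hP : P.IsHomogeneous D) :
    (faceP P).IsHomogeneous D := by
  have := hP.aeval (n := 1) (Fin.cases 0 X : Fin (n + 2) → Poly n A) (fun i => by
    refine Fin.cases ?_ (fun i => ?_) i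
    · exact isHomogeneous_zero _ _ _
    · exact isHomogeneous_X _ _)
  rw [one_mul] at this
  exact this

theorem wt_rename {N : ℕ} {h : Poly n A} (hh : Wt N h) :
    Wt (N + 1) (rename Fin.succ h : Poly (n + 1) A) := by
  intro a ha
  obtain ⟨u, rfl, hu⟩ := coeff_rename_ne_zero _ _ _ ha
  rw [Finsupp.degree_mapDomain]
  have := hh u hu
  omega

theorem pderiv_rename_zero (h : Poly n A) : pderiv 0 (rename Fin.succ h : Poly (n + 1) A) = 0 := by
  induction h using MvPolynomial.induction_on' with
  | add g1 g2 h1 h2 => rw [map_add, map_add, h1, h2, add_zero]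
  | monomial a r =>
    rw [rename_monomial, pderiv_monomial, Finsupp.mapDomain_of_notMem_range, Nat.cast_zero, mul_zero,
      monomial_zero]
    rintro ⟨i, hi⟩
    exact Fin.succ_ne_zero i hi

/-- weights of products with forms of degree `D - 1` -/
theorem wt_mul' {D M : ℕ} (hD : 0 < D) {P h : Poly n A} (hP : P.IsHomogeneous (D - 1))
    (hh : Wt (M + 1) h) : Wt (M + D) (P * h) := by
  have := JRh.wt_mul hP hh
  have e : M + 1 + (D - 1) = M + D := by omega
  rwa [e] at this

end gen

section
variable {n : ℕ} {B : Type} [CommRing B] [Algebra ℚ B]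

theorem IoQ_monomial (a : Fin (n + 1) →₀ ℕ) (r : B) : IoQ (monomial a r) =
    r * algebraMap ℚ B (((∏ i, (a i).factorial : ℕ) : ℚ) / ((a.degree + n).factorial : ℚ)) := by
  rw [IoQ, linMon_monomial, smul_eq_mul]

/-- derivative in the direction `z_0` and the face `z_0 = 0` -/
theorem IoQ_face_monomial (a : Fin (n + 2) →₀ ℕ) (r : B) :
    IoQ (pderiv 0 (monomial a r : Poly (n + 1) B)) =
      ((a.degree + n + 1 : ℕ) : B) * IoQ (monomial a r : Poly (n + 1) B) -
      IoQ (faceP (monomial a r)) := by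
  have hM : (((a.degree + n).factorial : ℕ) : ℚ) ≠ 0 := Nat.cast_ne_zero.2 (Nat.factorial_ne_zero _)
  have hM1 : ((a.degree + n + 1 : ℕ) : ℚ) ≠ 0 := Nat.cast_ne_zero.2 (Nat.succ_ne_zero _)
  have e1 : ((a.degree + n + 1 : ℕ) : B) = algebraMap ℚ B ((a.degree + n + 1 : ℕ) : ℚ) := by
    rw [map_natCast]
  have e2 : a.degree + (n + 1) = (a.degree + n) + 1 := by ring
  have e3 : ((a.degree + n + 1 : ℕ) : B) * IoQ (monomial a r : Poly (n + 1) B) =
      r * algebraMap ℚ B (((∏ i, (a i).factorial : ℕ) : ℚ) / ((a.degree + n).factorial : ℚ)) := by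
    rw [IoQ_monomial, e1, e2, Nat.factorial_succ]
    have : ((a.degree + n + 1 : ℕ) : ℚ) * (((∏ i, (a i).factorial : ℕ) : ℚ) /
        (((a.degree + n + 1) * (a.degree + n).factorial : ℕ) : ℚ)) =
        ((∏ i, (a i).factorial : ℕ) : ℚ) / ((a.degree + n).factorial : ℚ) := by
      rw [Nat.cast_mul (a.degree + n + 1)]
      field_simp
    rw [← this, RingHom.map_mul (algebraMap ℚ B)]
    ring
  rw [e3, pderiv_monomial, faceP_monomial]
  by_cases h0 : a 0 = 0
  · rw [if_pos h0, h0, Nat.cast_zero, mul_zero, monomial_zero, map_zero, IoQ_monomial]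
    have h1 : (∏ i : Fin (n + 2), (a i).factorial) = ∏ i : Fin (n + 1), (a.tail i).factorial := by
      rw [Fin.prod_univ_succ, h0, Nat.factorial_zero, one_mul]
      rfl
    have h2 : a.degree = a.tail.degree := by
      rw [Finsupp.degree_eq_sum, Fin.sum_univ_succ, h0, zero_add, Finsupp.degree_eq_sum]
      rfl
    rw [h1, h2, sub_self]
  · rw [if_neg h0, LinearMap.map_zero, sub_zero, IoQ_monomial]
    obtain ⟨b, hb⟩ : ∃ b, a 0 = b + 1 := ⟨a 0 - 1, by omega⟩
    obtain ⟨a', ha'⟩ : ∃ a' : Fin (n + 2) →₀ ℕ, a - Finsupp.single 0 1 = a' := ⟨_, rfl⟩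
    have haa : a' + Finsupp.single 0 1 = a := by
      rw [← ha']
      refine tsub_add_cancel_of_le ?_
      rw [Finsupp.single_le_iff]
      omega
    have ha0 : a' 0 = b := by
      have := DFunLike.congr_fun haa 0
      rw [Finsupp.add_apply, Finsupp.single_eq_same, hb] at this
      omega
    have has : ∀ i : Fin (n + 1), a' i.succ = a i.succ := by
      intro i
      have := DFunLike.congr_fun haa i.succ
      rwa [Finsupp.add_apply, Finsupp.single_eq_of_ne (Fin.succ_ne_zero i), add_zero] at this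
    have h1 : (∏ i : Fin (n + 2), (a i).factorial) =
        (b + 1) * ∏ i : Fin (n + 2), (a' i).factorial := by
      rw [Fin.prod_univ_succ, Fin.prod_univ_succ (f := fun i => (a' i).factorial), hb, ha0,
        Nat.factorial_succ, mul_assoc]
      congr 2
      exact Finset.prod_congr rfl fun i _ => by rw [has]
    have h2 : a'.degree + (n + 1) = a.degree + n := by
      have := congrArg Finsupp.degree haa
      rw [map_add, Finsupp.degree_single] at this
      omega
    rw [ha', h2, h1, hb]
    have h3 : (((b + 1) * ∏ i : Fin (n + 2), (a' i).factorial : ℕ) : ℚ) /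
        ((a.degree + n).factorial : ℚ) = ((b + 1 : ℕ) : ℚ) *
        (((∏ i : Fin (n + 2), (a' i).factorial : ℕ) : ℚ) /
        ((a.degree + n).factorial : ℚ)) := by
      rw [Nat.cast_mul (b + 1)]
      ring
    rw [h3, RingHom.map_mul (algebraMap ℚ B), map_natCast]
    ring

theorem IoQ_face {M : ℕ} {f : Poly (n + 1) B} (hf : Wt (M + 1) f) :
    IoQ (pderiv 0 f) = (M : B) * IoQ f - IoQ (faceP f) := by
  have h1 : faceP f = ∑ a ∈ f.support, faceP (monomial a (coeff a f)) := by
    conv_lhs => rw [f.as_sum]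
    exact map_sum _ _ _
  have h2 : pderiv 0 f = ∑ a ∈ f.support, pderiv 0 (monomial a (coeff a f)) := by
    conv_lhs => rw [f.as_sum]
    exact map_sum _ _ _
  have h3 : IoQ f = ∑ a ∈ f.support, IoQ (monomial a (coeff a f)) := by
    conv_lhs => rw [f.as_sum]
    exact map_sum _ _ _
  rw [h1, h2, h3, map_sum, map_sum, Finset.mul_sum, ← Finset.sum_sub_distrib]
  refine Finset.sum_congr rfl fun a ha => ?_
  rw [IoQ_face_monomial]
  have := hf a (mem_support_iff.1 ha)
  have e : a.degree + n + 1 = M := by omega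
  rw [e]

omit [Algebra ℚ B] in
theorem pderiv_Sg (D : ℕ) : pderiv 0 (Sg n B ^ D) = (D : Poly n B) * Sg n B ^ (D - 1) := by
  classical
  rw [pderiv_pow]
  have : pderiv 0 (Sg n B) = 1 := by
    rw [Sg, map_sum, Finset.sum_eq_single (0 : Fin (n + 1))]
    · exact pderiv_X_self _
    · intro j _ hj
      exact pderiv_X_of_ne hj
    · intro h; exact absurd (Finset.mem_univ _) h
  rw [this, mul_one]

/-- the coboundary of the face on the coefficients -/
theorem aN_face (hIOB : IOBStmt) {D : ℕ} (hD : 0 < D) {X1 : Poly (n + 1) B}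
    (hX : X1.IsHomogeneous D) (N L : ℕ) {h : Poly n B} (hh : Wt (D * L) h) :
    aN D (faceP X1) N h =
      aN D X1 (N + 1) (pderiv 0 (Sg (n + 1) B ^ D) * rename Fin.succ h) -
      aN D X1 N (pderiv 0 X1 * rename Fin.succ h) := by
  have e0 : D * L + D = D * (L + 1) := by ring
  have hr := wt_rename hh
  have w2 : Wt (D * (L + 1)) (pderiv 0 (Sg (n + 1) B ^ D) * rename Fin.succ h) := by
    rw [← e0]; exact wt_mul' hD (JRh.SgD_hom (n + 1) B D).pderiv hr
  have w3 : Wt (D * (L + 1)) (pderiv 0 X1 * rename Fin.succ h) := by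
    rw [← e0]; exact wt_mul' hD hX.pderiv hr
  rw [JRh.aN_wt hD (faceP X1) N L hh, JRh.aN_wt hD X1 (N + 1) (L + 1) w2,
    JRh.aN_wt hD X1 N (L + 1) w3]
  by_cases hL : L ≤ N + 1
  · rw [if_pos hL, if_pos (by omega)]
    have e1 : N + 1 + 1 - (L + 1) = N + 1 - L := by omega
    rw [e1]
    obtain ⟨m, hm⟩ : ∃ m, N + 1 - L = m := ⟨_, rfl⟩
    rw [hm]
    obtain ⟨h', hh'⟩ : ∃ h' : Poly (n + 1) B, rename Fin.succ h = h' := ⟨_, rfl⟩
    rw [hh'] at hr ⊢
    have e2 : IoQ (pderiv 0 (Sg (n + 1) B ^ D) * h' * X1 ^ m) = (D : B) * IoQ (h' * X1 ^ m) := by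
      have : pderiv 0 (Sg (n + 1) B ^ D) * h' * X1 ^ m =
          (D : Poly (n + 1) B) * (Sg (n + 1) B ^ (D - 1) * (h' * X1 ^ m)) := by
        rw [pderiv_Sg]; ring
      rw [this, JRh.IoQ_nat, JRh.IoQ_Sg_pow hIOB]
    have hN : ((N + 1).factorial : ℚ) / (m.factorial : ℚ) =
        ((N.factorial : ℚ) / (m.factorial : ℚ)) * ((N + 1 : ℕ) : ℚ) := by
      rw [Nat.factorial_succ]
      push_cast
      ring
    have w4 : ∀ k : ℕ, Wt (D * (L + k) + 1) (h' * X1 ^ k) := by
      intro k
      induction k with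
      | zero => rw [pow_zero, mul_one, add_zero]; exact hr
      | succ k ih =>
        have := JRh.wt_mul hX ih
        have e3 : X1 * (h' * X1 ^ k) = h' * X1 ^ (k + 1) := by ring
        have e4 : D * (L + k) + 1 + D = D * (L + (k + 1)) + 1 := by ring
        rwa [e3, e4] at this
    have hE := IoQ_face (w4 m)
    have e5 : D * (L + m) = D * (N + 1) := by
      congr 1; omega
    have e6 : faceP (h' * X1 ^ m) = h * faceP X1 ^ m := by
      rw [faceP_mul, faceP_pow, ← hh', faceP_rename]
    have e7 : pderiv 0 (h' * X1 ^ m) = (m : Poly (n + 1) B) * (pderiv 0 X1 * h' * X1 ^ (m - 1)) := by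
      rw [pderiv_mul, pderiv_pow, ← hh', pderiv_rename_zero]
      ring
    rw [e5, e6, e7, JRh.IoQ_nat] at hE
    have hE' : IoQ (h * faceP X1 ^ m) = ((D * (N + 1) : ℕ) : B) * IoQ (h' * X1 ^ m) -
        (m : B) * IoQ (pderiv 0 X1 * h' * X1 ^ (m - 1)) := by
      rw [hE]; ring
    rw [e2, hN, RingHom.map_mul (algebraMap ℚ B), hE']
    rcases Nat.eq_zero_or_pos m with h0 | hpos
    · subst h0
      rw [if_neg (by omega)]
      push_cast
      ring
    · obtain ⟨m', rfl⟩ : ∃ m', m = m' + 1 := ⟨m - 1, by omega⟩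
      have e8 : N + 1 - (L + 1) = m' := by omega
      rw [if_pos (by omega), e8, ← JRh.fac_rel N m',
        RingHom.map_mul (algebraMap ℚ B) _ (((m' + 1 : ℕ) : ℚ)), Nat.add_sub_cancel]
      push_cast
      ring
  · rw [if_neg hL, if_neg (by omega), if_neg (by omega), sub_zero]

omit [Algebra ℚ B] in
theorem map_Sg (D : ℕ) : map (HahnSeries.C : B →+* LaurentSeries B) (Sg n B ^ D) =
    Sg n (LaurentSeries B) ^ D := by
  rw [map_pow, Sg, map_sum, Sg]
  simp only [map_X]

omit [Algebra ℚ B] in
theorem PL_pderiv (D : ℕ) (X1 : Poly n B) :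
    pderiv 0 (PL D X1) = C (HahnSeries.single (-1) 1) *
      map (HahnSeries.C : B →+* LaurentSeries B) (pderiv 0 (Sg n B ^ D)) -
      map (HahnSeries.C : B →+* LaurentSeries B) (pderiv 0 X1) := by
  rw [PL, map_sub, pderiv_map, pderiv_C_mul, ← map_Sg, pderiv_map]

omit [Algebra ℚ B] in
theorem face_PL (D : ℕ) (X1 : Poly (n + 1) B) : faceP (PL D X1) = PL D (faceP X1) := by
  rw [PL, PL, faceP_sub, faceP_mul, faceP_C, faceP_pow, faceP_Sg, faceP_map]

theorem JL_face_monomial (hIOB : IOBStmt) {D : ℕ} (hD : 0 < D) {X1 : Poly (n + 1) B}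
    (hX : X1.IsHomogeneous D) (a : Fin (n + 1) →₀ ℕ) :
    JL D X1 (pderiv 0 (PL D X1) * rename Fin.succ (monomial a 1 : Poly n (LaurentSeries B))) =
      JL D (faceP X1) (monomial a 1) := by
  have e1 : pderiv 0 (PL D X1) * rename Fin.succ (monomial a 1 : Poly n (LaurentSeries B)) =
      C (HahnSeries.single (-1) 1) * map (HahnSeries.C : B →+* LaurentSeries B)
        (pderiv 0 (Sg (n + 1) B ^ D) * rename Fin.succ (monomial a 1)) -
      map (HahnSeries.C : B →+* LaurentSeries B)
        (pderiv 0 X1 * rename Fin.succ (monomial a 1)) := by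
    have e2 : rename Fin.succ (monomial a 1 : Poly n (LaurentSeries B)) =
        map (HahnSeries.C : B →+* LaurentSeries B) (rename Fin.succ (monomial a 1)) := by
      rw [rename_monomial, rename_monomial, map_monomial, RingHom.map_one]
    rw [PL_pderiv, e2, map_mul, map_mul]
    ring
  have e3 : (monomial a 1 : Poly n (LaurentSeries B)) =
      map (HahnSeries.C : B →+* LaurentSeries B) (monomial a 1) := by
    rw [map_monomial, RingHom.map_one]
  rw [e1, map_sub, e3]
  ext k
  rw [HahnSeries.coeff_sub, JRh.JL_single_map, JRh.JL_map, JRh.JL_map]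
  by_cases hd : D ∣ a.degree + (n + 1)
  · obtain ⟨L, hL⟩ := hd
    have hL1 : 1 ≤ L := by
      rcases Nat.eq_zero_or_pos L with h | h
      · subst h; omega
      · exact h
    have hw : Wt (D * L) (monomial a 1 : Poly n B) := by
      intro b hb
      classical
      rw [coeff_monomial] at hb
      split_ifs at hb with h
      · rw [← h]; exact hL
      · exact absurd rfl hb
    rcases lt_or_ge k 0 with hk | hk
    · rw [if_neg (by omega), if_neg (by omega), if_neg (by omega), sub_zero]
    · obtain ⟨N, rfl⟩ := Int.eq_ofNat_of_zero_le hk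
      rcases Nat.eq_zero_or_pos N with h0 | hpos
      · subst h0
        have w2 : Wt (D * (L + 1)) (pderiv 0 (Sg (n + 1) B ^ D) *
            rename Fin.succ (monomial a 1 : Poly n B)) := by
          have e0 : D * L + D = D * (L + 1) := by ring
          rw [← e0]; exact wt_mul' hD (JRh.SgD_hom (n + 1) B D).pderiv (wt_rename hw)
        rw [if_pos (by omega), if_neg (by omega), if_neg (by omega), Int.toNat_natCast,
          JRh.aN_wt hD X1 0 (L + 1) w2, if_neg (by omega), sub_zero]
      · obtain ⟨N', rfl⟩ : ∃ N', N = N' + 1 := ⟨N - 1, by omega⟩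
        have e4 : (((N' + 1 : ℕ) : ℤ) - 1).toNat = N' := by omega
        rw [if_pos (by omega), if_pos (by omega), if_pos (by omega), e4, Int.toNat_natCast,
          aN_face hIOB hD hX N' L hw]
  · have hw : JRh.NW D (monomial a 1 : Poly n B) := by
      intro b hb
      classical
      rw [coeff_monomial] at hb
      split_ifs at hb with h
      · rw [← h]; exact hd
      · exact absurd rfl hb
    have hnw : ∀ P : Poly (n + 1) B, P.IsHomogeneous (D - 1) →
        JRh.NW D (P * rename Fin.succ (monomial a 1)) := by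
      intro P hP b hb hdb
      obtain ⟨x, y, rfl, hx, hy⟩ := JRh.exists_of_mul hb
      have h1 := JRh.deg_of_hom hP hx
      obtain ⟨u, rfl, hu⟩ := coeff_rename_ne_zero _ _ _ hy
      refine hw u hu ?_
      rw [map_add, h1, Finsupp.degree_mapDomain] at hdb
      have e : D - 1 + u.degree + (n + 1 + 1) = D + (u.degree + (n + 1)) := by omega
      rw [e] at hdb
      exact (Nat.dvd_add_right (dvd_refl D)).1 hdb
    rw [JRh.aN_nw X1 _ (hnw _ (JRh.SgD_hom (n + 1) B D).pderiv), JRh.aN_nw X1 _ (hnw _ hX.pderiv),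
      JRh.aN_nw (faceP X1) _ hw]
    simp

/-- the coboundary of the face -/
theorem JL_face (hIOB : IOBStmt) {D : ℕ} (hD : 0 < D) {X1 : Poly (n + 1) B}
    (hX : X1.IsHomogeneous D) (g : Poly n (LaurentSeries B)) :
    JL D X1 (pderiv 0 (PL D X1) * rename Fin.succ g) = JL D (faceP X1) g := by
  induction g using MvPolynomial.induction_on' with
  | add g1 g2 h1 h2 => rw [map_add, mul_add, map_add, map_add, h1, h2]
  | monomial a r =>
    have e1 : (monomial a r : Poly n (LaurentSeries B)) = r • monomial a 1 := by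
      rw [smul_monomial, smul_eq_mul, mul_one]
    rw [e1, map_smul, mul_smul_comm, map_smul, map_smul, JL_face_monomial hIOB hD hX]

/-- dimension `0` -/
theorem JL_zero {D : ℕ} (hD : 0 < D) {X1 : Poly 0 B} (hX : X1.IsHomogeneous D) :
    JL D X1 (eP D 0 (PL D X1)) = 1 := by
  classical
  have hX1 : X1 = monomial (Finsupp.single 0 D) (coeff (Finsupp.single 0 D) X1) := by
    ext b
    rw [coeff_monomial]
    have hb : b = Finsupp.single 0 (b 0) := by
      ext i
      have hi : i = 0 := by omega
      rw [hi, Finsupp.single_eq_same]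
    by_cases h : Finsupp.single 0 D = b
    · rw [if_pos h, h]
    · rw [if_neg h]
      by_contra hc
      have h1 := JRh.deg_of_hom hX hc
      refine h ?_
      rw [hb, Finsupp.degree_single] at h1
      rw [hb, h1]
  obtain ⟨x, hx⟩ : ∃ x, coeff (Finsupp.single 0 D) X1 = x := ⟨_, rfl⟩
  rw [hx] at hX1
  have hS : (Sg 0 (LaurentSeries B) ^ D) = monomial (Finsupp.single 0 D) 1 := by
    have : Sg 0 (LaurentSeries B) = X 0 := by
      rw [Sg, Fin.sum_univ_one]
    rw [this, X_pow_eq_monomial]
  have hc : coeff (Finsupp.single 0 D) (PL D X1) = HahnSeries.single (-1) 1 - HahnSeries.C x := by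
    rw [PL, coeff_sub, coeff_C_mul, coeff_map, hx, hS, coeff_monomial, if_pos rfl, mul_one]
  have hj : ∀ k : ℤ, (jL D X1 (Finsupp.single 0 (D - 1))).coeff k =
      if 1 ≤ k then x ^ (k - 1).toNat else 0 := by
    intro k
    rw [JRh.jL_coeff]
    split_ifs with hk
    · obtain ⟨N, hN⟩ : ∃ N, (k - 1).toNat = N := ⟨_, rfl⟩
      rw [hN]
      have hw : Wt (D * 1) (monomial (Finsupp.single 0 (D - 1)) 1 : Poly 0 B) := by
        intro b hb
        rw [coeff_monomial] at hb
        split_ifs at hb with h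
        · rw [← h, Finsupp.degree_single]; omega
        · exact absurd rfl hb
      rw [JRh.aN_wt hD X1 N 1 hw, if_pos (by omega), Nat.add_sub_cancel, div_self
        (Nat.cast_ne_zero.2 (Nat.factorial_ne_zero N)), RingHom.map_one, one_mul, hX1, monomial_pow,
        monomial_mul, one_mul, IoQ_monomial]
      have e1 : (Finsupp.single 0 (D - 1) + N • Finsupp.single 0 D : Fin 1 →₀ ℕ) =
          Finsupp.single 0 (D - 1 + N * D) := by
        rw [Finsupp.smul_single, ← Finsupp.single_add, smul_eq_mul]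
      rw [e1, Finsupp.degree_single, Fin.prod_univ_one, Finsupp.single_eq_same, add_zero,
        div_self (Nat.cast_ne_zero.2 (Nat.factorial_ne_zero _)), RingHom.map_one, mul_one]
    · rfl
  change JL D X1 (monomial (Finsupp.single 0 (D - 1)) (coeff (Finsupp.single 0 D) (PL D X1))) = 1
  rw [JRh.JL_monomial, hc, sub_mul]
  ext k
  have h1 : (HahnSeries.single (-1) 1 * jL D X1 (Finsupp.single 0 (D - 1)) :
      LaurentSeries B).coeff k = (jL D X1 (Finsupp.single 0 (D - 1))).coeff (k + 1) := by
    have : k = (k + 1) + (-1) := by ring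
    conv_lhs => rw [this]
    rw [HahnSeries.coeff_single_mul_add, one_mul]
  rw [HahnSeries.coeff_sub, h1, HahnSeries.C_mul_eq_smul, HahnSeries.coeff_smul, hj, hj,
    smul_eq_mul, HahnSeries.coeff_one]
  rcases lt_trichotomy k 0 with hk | hk | hk
  · rw [if_neg (by omega), if_neg (by omega), if_neg (by omega), mul_zero, sub_zero]
  · subst hk
    simp
  · rw [if_pos (by omega), if_pos (by omega), if_neg (by omega)]
    have : (k + 1 - 1).toNat = (k - 1).toNat + 1 := by omega
    rw [this, pow_succ]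
    ring

end

end JEh

theorem JE_proof (hIOB : IOBStmt) (_hJR : JRStmt) : JEStmt := by
  intro B _ _ n D hD
  induction n with
  | zero => intro X1 hX; exact JEh.JL_zero hD hX
  | succ n ih =>
    intro X1 hX
    change JL D X1 (pderiv 0 (PL D X1) * rename Fin.succ (eP D n (faceP (PL D X1)))) = 1
    rw [JEh.JL_face hIOB hD hX, JEh.face_PL]
    exact ih (faceP X1) (JEh.faceP_hom hX)

end Pool.CUBE
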