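import Pool.Agent.H41.CUBE.JStmts

/-!
# Cube project, block TAME, part J: module JR (`J` kills the relations)
-/

set_option autoImplicit false

open Finset MvPolynomial Pool.CM

namespace Pool.CUBE

namespace JRh

section gen
variable {n : ℕ} {A : Type} [CommRing A]

theorem coeff_ez (i : Fin (n + 1)) (g : Poly n A) (a : Fin (n + 1) →₀ ℕ) :
    coeff a (ez i g) = (a i : A) * coeff a g := by
  classical
  induction g using MvPolynomial.induction_on' with
  | add g1 g2 h1 h2 => rw [map_add, coeff_add, coeff_add, h1, h2, mul_add]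
  | monomial b s =>
    rw [ez_monomial, coeff_monomial, coeff_monomial]
    split_ifs with h
    · rw [h]
    · rw [mul_zero]

theorem ez_map {B : Type} [CommRing B] (f : A →+* B) (i : Fin (n + 1))
    (g : Poly n A) : ez i (map f g) = map f (ez i g) := by
  ext a
  rw [coeff_ez, coeff_map, coeff_map, coeff_ez, map_mul, map_natCast]

theorem ez_hom {D : ℕ} {P : Poly n A} (hP : P.IsHomogeneous D) (i : Fin (n + 1)) :
    (ez i P).IsHomogeneous D := by
  intro a ha
  rw [coeff_ez] at ha
  exact hP (right_ne_zero_of_mul ha)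

theorem deg_of_hom {D : ℕ} {P : Poly n A} (hP : P.IsHomogeneous D) {a : Fin (n + 1) →₀ ℕ}
    (ha : coeff a P ≠ 0) : a.degree = D := by
  have h := hP ha
  have h' : Finsupp.degree a = Finsupp.weight (1 : Fin (n + 1) → ℕ) a :=
    DFunLike.congr_fun Finsupp.degree_eq_weight_one _
  exact h'.trans h

theorem exists_of_mul {P h : Poly n A} {a : Fin (n + 1) →₀ ℕ} (ha : coeff a (P * h) ≠ 0) :
    ∃ x y, x + y = a ∧ coeff x P ≠ 0 ∧ coeff y h ≠ 0 := by
  classical
  rw [coeff_mul] at ha
  obtain ⟨x, hx, hx'⟩ := Finset.exists_ne_zero_of_sum_ne_zero ha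
  exact ⟨x.1, x.2, Finset.HasAntidiagonal.mem_antidiagonal.1 hx, left_ne_zero_of_mul hx', right_ne_zero_of_mul hx'⟩

theorem wt_mul {D M : ℕ} {P h : Poly n A} (hP : P.IsHomogeneous D) (hh : Wt M h) :
    Wt (M + D) (P * h) := by
  intro a ha
  obtain ⟨x, y, rfl, hx, hy⟩ := exists_of_mul ha
  have h1 := deg_of_hom hP hx
  have h2 := hh y hy
  rw [map_add]
  omega

/-- all weights are not divisible by `D` -/
def NW (D : ℕ) (h : Poly n A) : Prop := ∀ a, coeff a h ≠ 0 → ¬ D ∣ a.degree + (n + 1)

theorem nw_mul {D : ℕ} {P h : Poly n A} (hP : P.IsHomogeneous D) (hh : NW D h) :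
    NW D (P * h) := by
  intro a ha hd
  obtain ⟨x, y, rfl, hx, hy⟩ := exists_of_mul ha
  have h1 := deg_of_hom hP hx
  refine hh y hy ?_
  rw [map_add, h1, add_assoc] at hd
  exact (Nat.dvd_add_right (dvd_refl D)).1 hd

theorem Sg_hom (n : ℕ) (A : Type) [CommRing A] : (Sg n A).IsHomogeneous 1 :=
  IsHomogeneous.sum _ _ _ fun i _ => isHomogeneous_X A i

theorem SgD_hom (n : ℕ) (A : Type) [CommRing A] (D : ℕ) : (Sg n A ^ D).IsHomogeneous D := by
  simpa using (Sg_hom n A).pow D

theorem ez_X (i j : Fin (n + 1)) : ez i (X j : Poly n A) = if i = j then X i else 0 := by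
  classical
  have h : (X j : Poly n A) = monomial (Finsupp.single j 1) 1 := rfl
  rw [h, ez_monomial, mul_one]
  by_cases hij : i = j
  · subst hij
    rw [if_pos rfl, Finsupp.single_eq_same, Nat.cast_one]
    rfl
  · rw [if_neg hij, Finsupp.single_eq_of_ne hij, Nat.cast_zero, monomial_zero]

theorem ez_Sg (i : Fin (n + 1)) : ez i (Sg n A) = X i := by
  classical
  rw [Sg, map_sum]
  simp only [ez_X]
  rw [Finset.sum_ite_eq, if_pos (Finset.mem_univ _)]

theorem ez_SgD (i : Fin (n + 1)) (D : ℕ) :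
    ez i (Sg n A ^ D) = (D : Poly n A) * (Sg n A ^ (D - 1) * X i) := by
  rw [Derivation.leibniz_pow, ez_Sg, smul_eq_mul, nsmul_eq_mul]

end gen

section
variable {n : ℕ} {B : Type} [CommRing B] [Algebra ℚ B]

theorem aN_monomial (D : ℕ) (X1 : Poly n B) (N : ℕ) (a : Fin (n + 1) →₀ ℕ) (r : B) :
    aN D X1 N (monomial a r) = r * aN D X1 N (monomial a 1) := by
  rw [aN, linMon_monomial, linMon_monomial, one_smul, smul_eq_mul]

theorem aN_sum (D : ℕ) (X1 : Poly n B) (N : ℕ) (h : Poly n B) :
    aN D X1 N h = ∑ a ∈ h.support, coeff a h * aN D X1 N (monomial a 1) := by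
  conv_lhs => rw [h.as_sum]
  rw [map_sum]
  exact Finset.sum_congr rfl fun a _ => aN_monomial _ _ _ _ _

theorem IoQ_sum (g h : Poly n B) :
    IoQ (h * g) = ∑ a ∈ h.support, coeff a h * IoQ (monomial a 1 * g) := by
  conv_lhs => rw [h.as_sum]
  rw [Finset.sum_mul, map_sum]
  refine Finset.sum_congr rfl fun a _ => ?_
  have : (monomial a (coeff a h) : Poly n B) * g = coeff a h • (monomial a 1 * g) := by
    rw [← smul_mul_assoc, smul_monomial, smul_eq_mul, mul_one]
  rw [this, map_smul, smul_eq_mul]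

theorem aN_wt {D : ℕ} (hD : 0 < D) (X1 : Poly n B) (N L : ℕ) {h : Poly n B}
    (hh : Wt (D * L) h) : aN D X1 N h = if L ≤ N + 1 then
      algebraMap ℚ B ((N.factorial : ℚ) / ((N + 1 - L).factorial : ℚ)) *
        IoQ (h * X1 ^ (N + 1 - L)) else 0 := by
  rw [aN_sum, IoQ_sum]
  have key : ∀ a ∈ h.support, coeff a h * aN D X1 N (monomial a 1) =
      if L ≤ N + 1 then algebraMap ℚ B ((N.factorial : ℚ) / ((N + 1 - L).factorial : ℚ)) *
        (coeff a h * IoQ (monomial a 1 * X1 ^ (N + 1 - L))) else 0 := by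
    intro a ha
    have h1 : a.degree + (n + 1) = D * L := hh a (mem_support_iff.1 ha)
    rw [aN, linMon_monomial, one_smul, h1, Nat.mul_div_cancel_left _ hD]
    by_cases hL : L ≤ N + 1
    · rw [if_pos ⟨dvd_mul_right _ _, hL⟩, if_pos hL]
      ring
    · rw [if_neg (fun h => hL h.2), if_neg hL, mul_zero]
  rw [Finset.sum_congr rfl key]
  split_ifs with hL
  · rw [Finset.mul_sum]
  · exact Finset.sum_const_zero

theorem aN_nw {D : ℕ} (X1 : Poly n B) (N : ℕ) {h : Poly n B} (hh : NW D h) :
    aN D X1 N h = 0 := by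
  rw [aN_sum]
  refine Finset.sum_eq_zero fun a ha => ?_
  rw [aN, linMon_monomial, one_smul, if_neg (fun h' => hh a (mem_support_iff.1 ha) h'.1), mul_zero]

theorem jL_coeff (D : ℕ) (X1 : Poly n B) (a : Fin (n + 1) →₀ ℕ) (k : ℤ) :
    (jL D X1 a).coeff k = if 1 ≤ k then aN D X1 (k - 1).toNat (monomial a 1) else 0 := by
  rw [jL]
  rcases lt_or_ge k 0 with hk | hk
  · rw [if_neg (by omega), HahnSeries.ofPowerSeries_apply]
    refine HahnSeries.embDomain_of_notMem_range ?_
    rintro ⟨m, hm⟩
    have : (m : ℤ) = k := hm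
    omega
  · obtain ⟨m, rfl⟩ := Int.eq_ofNat_of_zero_le hk
    rw [HahnSeries.ofPowerSeries_apply_coeff, PowerSeries.coeff_mk]
    by_cases hm : m = 0
    · subst hm; simp
    · rw [if_neg hm, if_pos (by omega)]
      congr 2
      omega

theorem JL_monomial (D : ℕ) (X1 : Poly n B) (a : Fin (n + 1) →₀ ℕ) (r : LaurentSeries B) :
    JL D X1 (monomial a r) = r * jL D X1 a := by
  rw [JL, linMon_monomial, smul_eq_mul]

theorem JL_map (D : ℕ) (X1 : Poly n B) (h : Poly n B) (k : ℤ) :
    (JL D X1 (map (HahnSeries.C : B →+* LaurentSeries B) h)).coeff k =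
      if 1 ≤ k then aN D X1 (k - 1).toNat h else 0 := by
  conv_lhs => rw [h.as_sum]
  rw [map_sum, map_sum, HahnSeries.coeff_sum]
  have key : ∀ a ∈ h.support, (JL D X1 (map (HahnSeries.C : B →+* LaurentSeries B)
      (monomial a (coeff a h)))).coeff k = if 1 ≤ k then
        coeff a h * aN D X1 (k - 1).toNat (monomial a 1) else 0 := by
    intro a _
    rw [map_monomial, JL_monomial, HahnSeries.C_mul_eq_smul, HahnSeries.coeff_smul, jL_coeff,
      smul_eq_mul, mul_ite, mul_zero]
  rw [Finset.sum_congr rfl key]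
  split_ifs
  · rw [← aN_sum]
  · exact Finset.sum_const_zero

/-- the coefficients of `J (T⁻¹ h)` -/
theorem JL_single_map (D : ℕ) (X1 : Poly n B) (h : Poly n B) (k : ℤ) :
    (JL D X1 (C (HahnSeries.single (-1) 1) *
      map (HahnSeries.C : B →+* LaurentSeries B) h)).coeff k =
      if 0 ≤ k then aN D X1 k.toNat h else 0 := by
  rw [← smul_eq_C_mul, map_smul, smul_eq_mul]
  have h1 : k = (k + 1) + (-1) := by ring
  conv_lhs => rw [h1]
  rw [HahnSeries.coeff_single_mul_add, one_mul, JL_map]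
  by_cases hk : 0 ≤ k
  · rw [if_pos hk, if_pos (by omega), add_sub_cancel_right]
  · rw [if_neg hk, if_neg (by omega)]

theorem IoQ_Sg_pow (hIOB : IOBStmt) (d : ℕ) (h : Poly n B) : IoQ (Sg n B ^ d * h) = IoQ h := by
  induction d with
  | zero => rw [pow_zero, one_mul]
  | succ d ih => rw [pow_succ', mul_assoc, (hIOB.1 B n).1, ih]

theorem IoQ_nat (c : ℕ) (h : Poly n B) : IoQ ((c : Poly n B) * h) = (c : B) * IoQ h := by
  have : (c : Poly n B) * h = (c : B) • h := by
    rw [smul_eq_C_mul, map_natCast]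
  rw [this, map_smul, smul_eq_mul]

theorem fac_rel (N m : ℕ) : ((N.factorial : ℚ) / ((m + 1).factorial : ℚ)) * ((m + 1 : ℕ) : ℚ) =
    (N.factorial : ℚ) / (m.factorial : ℚ) := by
  have h1 : (m.factorial : ℚ) ≠ 0 := Nat.cast_ne_zero.2 (Nat.factorial_ne_zero m)
  rw [Nat.factorial_succ]
  push_cast
  have h2 : ((m : ℚ) + 1) ≠ 0 := by positivity
  field_simp

/-- the relations for the coefficients -/
theorem aN_rel (hIOB : IOBStmt) {D : ℕ} (hD : 0 < D) {X1 : Poly n B} (hX : X1.IsHomogeneous D)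
    (N L : ℕ) (i : Fin (n + 1)) {h : Poly n B} (hh : Wt (D * L) h) :
    aN D X1 N (ez i h + h) = aN D X1 (N + 1) (ez i (Sg n B ^ D) * h) -
      aN D X1 N (ez i X1 * h) := by
  have e0 : D * L + D = D * (L + 1) := by ring
  have w1 : Wt (D * L) (ez i h + h) := by
    intro a ha
    refine hh a fun h0 => ha ?_
    rw [coeff_add, coeff_ez, h0, mul_zero, add_zero]
  have w2 : Wt (D * (L + 1)) (ez i (Sg n B ^ D) * h) := by
    rw [← e0]; exact wt_mul (ez_hom (SgD_hom n B D) i) hh
  have w3 : Wt (D * (L + 1)) (ez i X1 * h) := by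
    rw [← e0]; exact wt_mul (ez_hom hX i) hh
  rw [aN_wt hD X1 N L w1, aN_wt hD X1 (N + 1) (L + 1) w2, aN_wt hD X1 N (L + 1) w3]
  by_cases hL : L ≤ N + 1
  · rw [if_pos hL, if_pos (by omega)]
    have e1 : N + 1 + 1 - (L + 1) = N + 1 - L := by omega
    rw [e1]
    obtain ⟨m, hm⟩ : ∃ m, N + 1 - L = m := ⟨_, rfl⟩
    rw [hm]
    -- the second term
    have e2 : IoQ (ez i (Sg n B ^ D) * h * X1 ^ m) = (D : B) * IoQ (X i * (h * X1 ^ m)) := by
      have : ez i (Sg n B ^ D) * h * X1 ^ m =
          (D : Poly n B) * (Sg n B ^ (D - 1) * (X i * (h * X1 ^ m))) := by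
        rw [ez_SgD]; ring
      rw [this, IoQ_nat, IoQ_Sg_pow hIOB]
    have hN : ((N + 1).factorial : ℚ) / (m.factorial : ℚ) =
        ((N.factorial : ℚ) / (m.factorial : ℚ)) * ((N + 1 : ℕ) : ℚ) := by
      rw [Nat.factorial_succ]
      push_cast
      ring
    -- Euler
    have w4 : ∀ k : ℕ, Wt (D * (L + k)) (h * X1 ^ k) := by
      intro k
      induction k with
      | zero => rw [pow_zero, mul_one, add_zero]; exact hh
      | succ k ih =>
        have := wt_mul hX ih
        have e3 : X1 * (h * X1 ^ k) = h * X1 ^ (k + 1) := by ring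
        have e4 : D * (L + k) + D = D * (L + (k + 1)) := by ring
        rwa [e3, e4] at this
    have hE := (hIOB.1 B n).2.1 i _ _ (w4 m)
    have e5 : D * (L + m) = D * (N + 1) := by
      congr 1; omega
    rw [e5] at hE
    have e6 : ez i (h * X1 ^ m) + h * X1 ^ m =
        (ez i h + h) * X1 ^ m + (m : Poly n B) * (ez i X1 * h * X1 ^ (m - 1)) := by
      rw [Derivation.leibniz, Derivation.leibniz_pow]
      simp only [smul_eq_mul, nsmul_eq_mul]
      ring
    rw [e6, map_add, IoQ_nat] at hE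
    rw [e2, hN, RingHom.map_mul (algebraMap ℚ B)]
    rcases Nat.eq_zero_or_pos m with h0 | hpos
    · subst h0
      rw [Nat.cast_zero, zero_mul, add_zero] at hE
      rw [if_neg (by omega), hE, sub_zero]
      push_cast
      ring
    · obtain ⟨m', rfl⟩ : ∃ m', m = m' + 1 := ⟨m - 1, by omega⟩
      have e7 : N + 1 - (L + 1) = m' := by omega
      rw [if_pos (by omega), e7, ← fac_rel N m',
        RingHom.map_mul (algebraMap ℚ B) _ (((m' + 1 : ℕ) : ℚ))]
      rw [Nat.add_sub_cancel] at hE
      have hE' : IoQ ((ez i h + h) * X1 ^ (m' + 1)) =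
          ((D * (N + 1) : ℕ) : B) * IoQ (X i * (h * X1 ^ (m' + 1))) -
          ((m' + 1 : ℕ) : B) * IoQ (ez i X1 * h * X1 ^ m') := by
        rw [← hE]; ring
      rw [hE']
      push_cast
      ring
  · rw [if_neg hL, if_neg (by omega), if_neg (by omega), sub_zero]

omit [Algebra ℚ B] in
theorem PL_ez (D : ℕ) (X1 : Poly n B) (i : Fin (n + 1)) :
    ez i (PL D X1) = C (HahnSeries.single (-1) 1) *
      map (HahnSeries.C : B →+* LaurentSeries B) (ez i (Sg n B ^ D)) -
      map (HahnSeries.C : B →+* LaurentSeries B) (ez i X1) := by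
  have h1 : map (HahnSeries.C : B →+* LaurentSeries B) (Sg n B ^ D) =
      Sg n (LaurentSeries B) ^ D := by
    rw [map_pow, Sg, map_sum, Sg]
    simp only [map_X]
  rw [PL, map_sub, ez_map, ← smul_eq_C_mul, Derivation.map_smul, smul_eq_C_mul, ← h1, ez_map]

theorem JL_rel_monomial (hIOB : IOBStmt) {D : ℕ} (hD : 0 < D) {X1 : Poly n B}
    (hX : X1.IsHomogeneous D) (i : Fin (n + 1)) (a : Fin (n + 1) →₀ ℕ) :
    JL D X1 (Dop (PL D X1) i (monomial a 1)) = 0 := by
  have e1 : Dop (PL D X1) i (monomial a 1) =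
      map (HahnSeries.C : B →+* LaurentSeries B) (ez i (monomial a 1) + monomial a 1) -
      C (HahnSeries.single (-1) 1) *
        map (HahnSeries.C : B →+* LaurentSeries B) (ez i (Sg n B ^ D) * monomial a 1) +
      map (HahnSeries.C : B →+* LaurentSeries B) (ez i X1 * monomial a 1) := by
    have e2 : (monomial a 1 : Poly n (LaurentSeries B)) =
        map (HahnSeries.C : B →+* LaurentSeries B) (monomial a 1) := by
      rw [map_monomial, RingHom.map_one]
    rw [Dop_apply, PL_ez, e2, ez_map, map_add, map_mul, map_mul]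
    ring
  rw [e1, map_add, map_sub]
  ext k
  rw [HahnSeries.coeff_add, HahnSeries.coeff_sub, JL_map, JL_single_map, JL_map,
    HahnSeries.coeff_zero]
  by_cases hd : D ∣ a.degree + (n + 1)
  · obtain ⟨L, hL⟩ := hd
    have hL1 : 1 ≤ L := by
      rcases Nat.eq_zero_or_pos L with h | h
      · subst h; omega
      · exact h
    have hw : Wt (D * L) (monomial a 1 : Poly n B) := by
      intro b hb
      classical
      rw [coeff_monomial] at hb
      split_ifs at hb with h
      · rw [← h]; exact hL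
      · exact absurd rfl hb
    rcases lt_or_ge k 0 with hk | hk
    · rw [if_neg (by omega), if_neg (by omega), if_neg (by omega)]
      ring
    · obtain ⟨N, rfl⟩ := Int.eq_ofNat_of_zero_le hk
      rcases Nat.eq_zero_or_pos N with h0 | hpos
      · subst h0
        have w2 : Wt (D * (L + 1)) (ez i (Sg n B ^ D) * monomial a 1 : Poly n B) := by
          have e0 : D * L + D = D * (L + 1) := by ring
          rw [← e0]; exact wt_mul (ez_hom (SgD_hom n B D) i) hw
        rw [if_neg (by omega), if_pos (by omega), if_neg (by omega), Int.toNat_natCast,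
          aN_wt hD X1 0 (L + 1) w2, if_neg (by omega)]
        ring
      · obtain ⟨N', rfl⟩ : ∃ N', N = N' + 1 := ⟨N - 1, by omega⟩
        have e3 : (((N' + 1 : ℕ) : ℤ) - 1).toNat = N' := by omega
        rw [if_pos (by omega), if_pos (by omega), if_pos (by omega), e3, Int.toNat_natCast,
          aN_rel hIOB hD hX N' L i hw]
        ring
  · have hw : NW D (monomial a 1 : Poly n B) := by
      intro b hb
      classical
      rw [coeff_monomial] at hb
      split_ifs at hb with h
      · rw [← h]; exact hd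
      · exact absurd rfl hb
    have w1 : NW D (ez i (monomial a 1) + monomial a 1 : Poly n B) := by
      intro b hb
      refine hw b fun h0 => hb ?_
      rw [coeff_add, coeff_ez, h0, mul_zero, add_zero]
    have w2 : NW D (ez i (Sg n B ^ D) * monomial a 1 : Poly n B) :=
      nw_mul (ez_hom (SgD_hom n B D) i) hw
    have w3 : NW D (ez i X1 * monomial a 1 : Poly n B) := nw_mul (ez_hom hX i) hw
    rw [aN_nw X1 _ w1, aN_nw X1 _ w2, aN_nw X1 _ w3]
    simp

theorem JLp_map {D : ℕ} (X1 : Poly n B) (φ : B →+* B) (p : ℕ) (hp : 0 < p)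
    (g : Poly n (LaurentSeries B)) :
    JLp D X1 φ p hp (map (FUN.phiL φ p hp) g) = FUN.phiL φ p hp (JL D X1 g) := by
  induction g using MvPolynomial.induction_on' with
  | add g1 g2 h1 h2 => rw [map_add, map_add, map_add, map_add, h1, h2]
  | monomial a r =>
    rw [map_monomial, JLp, linMon_monomial, JL_monomial, smul_eq_mul, map_mul]

end

/-- a linear map vanishes if it vanishes on the monomials with coefficient `1` -/
theorem lin_zero {n : ℕ} {R M : Type} [CommRing R] [AddCommGroup M] [Module R M]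
    (f : Poly n R →ₗ[R] M) (h : ∀ a, f (monomial a 1) = 0) (g : Poly n R) : f g = 0 := by
  induction g using MvPolynomial.induction_on' with
  | add g1 g2 h1 h2 => rw [map_add, h1, h2, add_zero]
  | monomial a r =>
    have : (monomial a r : Poly n R) = r • monomial a 1 := by
      rw [smul_monomial, smul_eq_mul, mul_one]
    rw [this, map_smul, h a, smul_zero]

end JRh

theorem JR_proof (hIOB : IOBStmt) : JRStmt := by
  intro B _ _ n D hD X1 hX
  refine ⟨fun i g => ?_, fun φ p hp i g => ?_⟩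
  · exact JRh.lin_zero ((JL D X1).comp (Dop (PL D X1) i))
      (fun a => JRh.JL_rel_monomial hIOB hD hX i a) g
  · refine JRh.lin_zero ((JLp D X1 φ p hp).comp (Dop (map (FUN.phiL φ p hp) (PL D X1)) i))
      (fun a => ?_) g
    have e1 : Dop (map (FUN.phiL φ p hp) (PL D X1)) i (monomial a 1) =
        map (FUN.phiL φ p hp) (Dop (PL D X1) i (monomial a 1)) := by
      have hm : (monomial a 1 : Poly n (LaurentSeries B)) =
          map (FUN.phiL φ p hp) (monomial a 1) := by
        rw [map_monomial, RingHom.map_one]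
      rw [Dop_apply, Dop_apply, map_sub, map_add, map_mul, ← JRh.ez_map, ← JRh.ez_map, ← hm]
    rw [LinearMap.comp_apply, e1, JRh.JLp_map, JRh.JL_rel_monomial hIOB hD hX i a, map_zero]

end Pool.CUBE
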