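import Pool.Agent.H38.CUBE.JJStmts

/-!
# MP_47888e_al, block CONT/JJ: module DEL, the coefficients of `δ_j`
-/

set_option autoImplicit false

open Polynomial

namespace Pool.CUBE

open Pool.CM Pool.H93.Cube

namespace J_DEL

theorem ofPS_neg {R : Type} [CommRing R] (f : PowerSeries R) (k : ℤ) (hk : k < 0) :
    (HahnSeries.ofPowerSeries ℤ R f).coeff k = 0 := by
  rw [HahnSeries.ofPowerSeries_apply]
  refine HahnSeries.embDomain_of_notMem_range ?_
  rintro ⟨n, hn⟩
  have : (n : ℤ) = k := hn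
  omega

theorem ofPS_nat {R : Type} [CommRing R] (f : ℕ → R) (k : ℕ) :
    (HahnSeries.ofPowerSeries ℤ R (PowerSeries.mk f)).coeff (k : ℤ) = f k := by
  rw [HahnSeries.ofPowerSeries_apply_coeff, PowerSeries.coeff_mk]

theorem single_mul_coeff {R : Type} [CommRing R] (c s : ℤ) (f : LaurentSeries R) :
    ((HahnSeries.single c 1 : LaurentSeries R) * f).coeff s = f.coeff (s - c) := by
  have h : s = (s - c) + c := by ring
  conv_lhs => rw [h]
  rw [HahnSeries.coeff_single_mul_add, one_mul]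

end J_DEL

theorem del_thm (hEVR : Corner.EVRStmt) : Corner.DELStmt := by
  intro n E _ _ K j a hD l s t
  rw [Corner.del, if_pos hD]
  rcases lt_or_ge l 0 with hl | hl
  · rw [J_DEL.ofPS_neg _ _ hl, if_neg (fun h => absurd h.1 (not_le.2 hl))]
    simp
  obtain ⟨l, rfl⟩ := Int.eq_ofNat_of_zero_le hl
  rw [J_DEL.ofPS_nat, J_DEL.single_mul_coeff]
  have hL : 1 ≤ K.lv a := by
    refine (Nat.one_le_div_iff K.hD).2 (Nat.le_of_dvd (by omega) hD)
  have hl' : (l : ℤ).toNat = l := Int.toNat_natCast l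
  rcases lt_or_ge (s - (1 - ((K.lv a + l : ℕ) : ℤ))) 0 with hs | hs
  · rw [J_DEL.ofPS_neg _ _ hs, HahnSeries.coeff_zero]
    split_ifs with h1 h2
    · subst h2
      rw [(hEVR n E K (K.lv a) (l : ℤ).toNat t.toNat (MvPolynomial.monomial a 1) (-s - 1) hL
        (by rw [hl']; push_cast at hs ⊢; omega)).1, sub_self]
    · rw [(hEVR n E K (K.lv a) (l : ℤ).toNat t.toNat (MvPolynomial.monomial a 1) (-s - 1) hL
        (by rw [hl']; push_cast at hs ⊢; omega)).2 j (by omega), sub_self]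
    · rfl
  · obtain ⟨s', hs'⟩ := Int.eq_ofNat_of_zero_le hs
    rw [hs', J_DEL.ofPS_nat]
    rcases lt_or_ge t 0 with ht | ht
    · rw [J_DEL.ofPS_neg _ _ ht, if_neg (fun h => absurd h.2 (not_le.2 ht))]
    obtain ⟨t, rfl⟩ := Int.eq_ofNat_of_zero_le ht
    rw [J_DEL.ofPS_nat, if_pos ⟨hl, ht⟩, hl', Int.toNat_natCast t]
    have hA : K.Ainf (K.lv a) (MvPolynomial.monomial a 1) l t (-s - 1) = 0 := by
      rw [Corner.Ainf, if_neg]
      push_cast at hs
      omega
    rw [hA, ite_self, zero_sub]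
    have : ((K.lv a + l : ℕ) : ℤ) - 2 - (s' : ℤ) = -s - 1 := by
      push_cast at hs' ⊢
      omega
    rw [this]

end Pool.CUBE
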