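import Pool.Agent.H93.CUBE.LStmts
import Pool.Agent.H53.CUBE.L_EXG

/-!
# Cube project (MP_47888e_al), block LIMIT: module EXO

Expansion at `0` commutes with `∇ + G`.
-/

set_option autoImplicit false

open Polynomial Pool.CM

namespace Pool.H93.Cube

namespace EXO

variable {E : Type} [Field E] {m : Type} [Fintype m]

theorem ex_opF (G : Matrix m m (RatFunc E)) (v : m → RatFunc E) :
    (fun a => ex E (opF (nabF E) G v a)) = op (G.map (ex E)) (fun a => ex E (v a)) := by
  funext a
  rw [opF_apply, op_apply, map_add, map_sum, EXG.ex_nabF]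
  simp only [map_mul, Matrix.map_apply]

theorem ex_opF_pow (G : Matrix m m (RatFunc E)) (k : ℕ) (v : m → RatFunc E) :
    (fun a => ex E ((opF (nabF E) G ^ k) v a)) =
      (op (G.map (ex E)) ^ k) (fun a => ex E (v a)) := by
  induction k with
  | zero => rfl
  | succ k ih =>
    rw [pow_succ', pow_succ', Module.End.mul_apply, Module.End.mul_apply, ← ih, ← ex_opF]

theorem ex_opF_nil (G : Matrix m m (RatFunc E)) (p k : ℕ) (v : m → RatFunc E) :
    (fun a => ex E (((opF (nabF E) G ^ p - opF (nabF E) G) ^ k) v a)) =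
      ((op (G.map (ex E)) ^ p - op (G.map (ex E))) ^ k) (fun a => ex E (v a)) := by
  induction k with
  | zero => rfl
  | succ k ih =>
    rw [pow_succ', pow_succ', Module.End.mul_apply, Module.End.mul_apply, ← ih,
      LinearMap.sub_apply, LinearMap.sub_apply, ← ex_opF_pow, ← ex_opF]
    funext a
    rw [Pi.sub_apply, map_sub, Pi.sub_apply]

end EXO

theorem EXO_thm : EXOStmt := by
  intro E _ m _ G v
  exact ⟨fun k a => congrFun (EXO.ex_opF_pow G k v) a,
    fun p n a => congrFun (EXO.ex_opF_nil G p n v) a⟩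

end Pool.H93.Cube
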