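import Pool.Agent.H41.CUBE.TStmts

/-!
# Cube project, block TAME, module RED: reduction with control
-/

set_option autoImplicit false

open Finset MvPolynomial

namespace Pool.CUBE

namespace RED

variable {n : ℕ} {A : Type} [CommRing A]

/-- a reduced polynomial of level `n + 2` vanishes -/
theorem rd_zero {D : ℕ} (hD : 0 < D) {r : Poly n A} (hr : Rd D r) (hw : Wt (D * (n + 2)) r) :
    r = 0 := by
  ext a
  rw [coeff_zero]
  by_contra h
  have h1 := hr a h
  have h2 := hw a h
  have h3 : a.degree ≤ (n + 1) * (D - 1) := by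
    rw [Finsupp.degree_eq_sum]
    calc ∑ i, a i ≤ ∑ _i : Fin (n + 1), (D - 1) := Finset.sum_le_sum fun i _ => by
          have := h1 i; omega
      _ = _ := by simp
  obtain ⟨D', rfl⟩ : ∃ D', D = D' + 1 := ⟨D - 1, by omega⟩
  have h4 : (D' + 1) * (n + 2) = (n + 1) * D' + (n + 1) + (D' + 1) := by ring
  simp only [Nat.add_sub_cancel] at h3
  omega

theorem coefIn_monomial_mul {G : AddSubgroup A} {b : Fin (n + 1) →₀ ℕ} {g : Poly n A}
    (h : CoefIn G g) : CoefIn G (monomial b 1 * g) := by
  intro a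
  rw [coeff_monomial_mul']
  split_ifs
  · rw [one_mul]; exact h _
  · exact G.zero_mem

theorem wt_monomial_mul {N : ℕ} {b : Fin (n + 1) →₀ ℕ} {g : Poly n A}
    (h : Wt N g) : Wt (N + b.degree) (monomial b 1 * g) := by
  intro a ha
  rw [coeff_monomial_mul'] at ha
  split_ifs at ha with hb
  · rw [one_mul] at ha
    have h1 := h _ ha
    have h2 : (a - b).degree + b.degree = a.degree := by
      rw [← map_add, tsub_add_cancel_of_le hb]
    omega
  · exact absurd rfl ha

/-- reduction at all levels -/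
theorem redAt_all {D : ℕ} (hD : 0 < D) {P : Poly n A} {G : AddSubgroup A}
    (h : ∀ m ≤ n + 1, RedAt P D G m) (m : ℕ) : RedAt P D G m := by
  by_cases hm : m ≤ n + 1
  · exact h m hm
  intro a ha
  have hle : D * (n + 2) - (n + 1) ≤ a.degree := by
    have : D * (n + 2) ≤ D * (m + 1) := Nat.mul_le_mul_left _ (by omega)
    omega
  have hpos : n + 1 ≤ D * (n + 2) := by nlinarith
  obtain ⟨b, hba, hbd⟩ := Finsupp.exists_le_degree_eq a _ hle
  have hb : b.degree + (n + 1) = D * ((n + 1) + 1) := by
    rw [hbd]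
    have : D * (n + 1 + 1) = D * (n + 2) := rfl
    omega
  obtain ⟨g, r, h1, h2, h3, h4, h5, h6⟩ := h (n + 1) le_rfl b hb
  have hr : r = 0 := rd_zero hD h4 h3
  subst hr
  rw [add_zero] at h1
  refine ⟨fun i => monomial (a - b) 1 * g i, 0, ?_, fun i => ?_, ?_, ?_, fun i => ?_, ?_⟩
  · rw [add_zero]
    have : (monomial a 1 : Poly n A) = monomial (a - b) 1 * monomial b 1 := by
      rw [monomial_mul, one_mul, tsub_add_cancel_of_le hba]
    rw [this, h1, Finset.mul_sum]
    exact Finset.sum_congr rfl fun i _ => by ring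
  · have h7 := wt_monomial_mul (b := a - b) (h2 i)
    have h8 : (a - b).degree + b.degree = a.degree := by
      rw [← map_add, tsub_add_cancel_of_le hba]
    have h9 : D * (n + 1) + (a - b).degree = D * m := by
      have e1 : D * (n + 1 + 1) = D * (n + 1) + D := by ring
      have e2 : D * (m + 1) = D * m + D := by ring
      omega
    rwa [h9] at h7
  · intro a' ha'; exact absurd (coeff_zero a') ha'
  · intro a' ha'; exact absurd (coeff_zero a') ha'
  · exact coefIn_monomial_mul (h5 i)
  · intro a'; rw [coeff_zero]; exact G.zero_mem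

theorem coeff_ez (i : Fin (n + 1)) (g : Poly n A) (a : Fin (n + 1) →₀ ℕ) :
    coeff a (ez i g) = (a i : A) * coeff a g := by
  classical
  induction g using MvPolynomial.induction_on' with
  | add g1 g2 h1 h2 => rw [map_add, coeff_add, coeff_add, h1, h2, mul_add]
  | monomial b s =>
    rw [ez_monomial, coeff_monomial, coeff_monomial]
    split_ifs with h
    · rw [h]
    · rw [mul_zero]

theorem nsm {G : AddSubgroup A} {x : A} (h : x ∈ G) (k : ℕ) : (k : A) * x ∈ G := by
  rw [← nsmul_eq_mul]; exact G.nsmul_mem h k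

/-- one step -/
theorem step {D : ℕ} {P : Poly n A} {S : ℕ → AddSubgroup A} (hS : Filt S) (m : ℕ)
    (h : RedAt P D (S 1) m) (c : ℕ) (g : Poly n A) (hg : Wt (D * (m + 1)) g)
    (hc : CoefIn (S c) g) :
    ∃ (g' r : Poly n A) (u : Fin (n + 1) → Poly n A), g = r + g' + ∑ k, Dop P k (u k) ∧
      Rd D r ∧ Wt (D * (m + 1)) r ∧ Wt (D * m) g' ∧ (∀ k, Wt (D * m) (u k)) ∧
      CoefIn (S (c + 1)) r ∧ CoefIn (S (c + 1)) g' ∧ ∀ k, CoefIn (S (c + 1)) (u k) := by
  classical
  have h' : ∀ a : Fin (n + 1) →₀ ℕ, ∃ (G : Fin (n + 1) → Poly n A) (r : Poly n A),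
      (a ∈ g.support → (monomial a 1 : Poly n A) = ∑ i, ez i P * G i + r) ∧
      (∀ i, Wt (D * m) (G i)) ∧ Wt (D * (m + 1)) r ∧ Rd D r ∧
      (∀ i, CoefIn (S 1) (G i)) ∧ CoefIn (S 1) r := by
    intro a
    by_cases ha : a.degree + (n + 1) = D * (m + 1)
    · obtain ⟨G, r, h1, h2⟩ := h a ha
      exact ⟨G, r, fun _ => h1, h2⟩
    · refine ⟨fun _ => 0, 0, fun h1 => absurd (hg a (mem_support_iff.1 h1)) ha,
        fun _ a' ha' => absurd (coeff_zero a') ha', fun a' ha' => absurd (coeff_zero a') ha',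
        fun a' ha' => absurd (coeff_zero a') ha', fun _ a' => ?_, fun a' => ?_⟩
      · rw [coeff_zero]; exact (S 1).zero_mem
      · rw [coeff_zero]; exact (S 1).zero_mem
  choose G R h1 h2 h3 h4 h5 h6 using h'
  have hsumc : ∀ (F : (Fin (n + 1) →₀ ℕ) → Poly n A) (a' : Fin (n + 1) →₀ ℕ),
      coeff a' (∑ a ∈ g.support, C (coeff a g) * F a) =
        ∑ a ∈ g.support, coeff a g * coeff a' (F a) := by
    intro F a'
    rw [coeff_sum]
    exact Finset.sum_congr rfl fun a _ => coeff_C_mul _ _ _
  have hcoef : ∀ (F : (Fin (n + 1) →₀ ℕ) → Poly n A), (∀ a, CoefIn (S 1) (F a)) →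
      CoefIn (S (c + 1)) (∑ a ∈ g.support, C (coeff a g) * F a) := by
    intro F hF a'
    rw [hsumc]
    exact AddSubgroup.sum_mem _ fun a _ => hS.mul c 1 _ _ (hc a) (hF a a')
  have hwt : ∀ (N : ℕ) (F : (Fin (n + 1) →₀ ℕ) → Poly n A), (∀ a, Wt N (F a)) →
      Wt N (∑ a ∈ g.support, C (coeff a g) * F a) := by
    intro N F hF a' ha'
    rw [hsumc] at ha'
    obtain ⟨a, -, ha⟩ := Finset.exists_ne_zero_of_sum_ne_zero ha'
    exact hF a a' (right_ne_zero_of_mul ha)
  have hrd : Rd D (∑ a ∈ g.support, C (coeff a g) * R a) := by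
    intro a' ha'
    rw [hsumc] at ha'
    obtain ⟨a, -, ha⟩ := Finset.exists_ne_zero_of_sum_ne_zero ha'
    exact h4 a a' (right_ne_zero_of_mul ha)
  set H : Fin (n + 1) → Poly n A := fun k => ∑ a ∈ g.support, C (coeff a g) * G a k with hH
  have hg1 : g = ∑ i, ez i P * H i + ∑ a ∈ g.support, C (coeff a g) * R a := by
    have e1 : g = ∑ a ∈ g.support, C (coeff a g) * (∑ i, ez i P * G a i + R a) := by
      conv_lhs => rw [g.as_sum]
      refine Finset.sum_congr rfl fun a ha => ?_
      rw [← h1 a ha, C_mul_monomial, mul_one]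
    calc g = ∑ a ∈ g.support, C (coeff a g) * (∑ i, ez i P * G a i + R a) := e1
      _ = ∑ a ∈ g.support, (∑ i, ez i P * (C (coeff a g) * G a i) + C (coeff a g) * R a) := by
          refine Finset.sum_congr rfl fun a _ => ?_
          rw [mul_add, Finset.mul_sum]
          congr 1
          exact Finset.sum_congr rfl fun i _ => by ring
      _ = _ := by
          rw [Finset.sum_add_distrib, Finset.sum_comm]
          congr 1
          exact Finset.sum_congr rfl fun i _ => (Finset.mul_sum _ _ _).symm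
  refine ⟨∑ i, (ez i (H i) + H i), ∑ a ∈ g.support, C (coeff a g) * R a, fun k => - H k, ?_, hrd,
    hwt _ _ h3, ?_, fun k => ?_, hcoef _ h6, ?_, fun k => ?_⟩
  · conv_lhs => rw [hg1]
    have : ∑ k, Dop P k (- H k) = ∑ i, ez i P * H i - ∑ i, (ez i (H i) + H i) := by
      rw [← Finset.sum_sub_distrib]
      refine Finset.sum_congr rfl fun k _ => ?_
      rw [Dop_apply, map_neg]
      ring
    rw [this]
    ring
  · intro a' ha'
    rw [coeff_sum] at ha'
    obtain ⟨i, -, hi⟩ := Finset.exists_ne_zero_of_sum_ne_zero ha'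
    refine hwt (D * m) (fun a => G a i) (fun a => h2 a i) a' ?_
    intro h0
    have h0' : coeff a' (H i) = 0 := h0
    exact hi (by rw [coeff_add, coeff_ez, h0', mul_zero, add_zero])
  · intro a' ha'
    refine hwt (D * m) (fun a => G a k) (fun a => h2 a k) a' ?_
    intro h0
    have h0' : coeff a' (H k) = 0 := h0
    exact ha' (by rw [coeff_neg, h0', neg_zero])
  · intro a'
    rw [coeff_sum]
    refine AddSubgroup.sum_mem _ fun i _ => ?_
    rw [coeff_add, coeff_ez]
    have : coeff a' (H i) ∈ S (c + 1) := hcoef (fun a => G a i) (fun a => h5 a i) a'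
    exact AddSubgroup.add_mem _ (nsm this _) this
  · intro a'
    rw [coeff_neg]
    exact AddSubgroup.neg_mem _ (hcoef (fun a => G a k) (fun a => h5 a k) a')

end RED

theorem RED_proof : REDStmt := by
  intro A _ n D hD P S _ hS hred m
  have hall := RED.redAt_all hD hred
  induction m with
  | zero =>
    intro c g hg _
    have hg0 : g = 0 := by
      ext a
      rw [coeff_zero]
      by_contra h
      have := hg a h
      omega
    refine ⟨fun _ => 0, 0, ?_, ?_, ?_, ?_, ?_, ?_, ?_⟩
    · rw [hg0]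
      simp
    · intro a ha; exact absurd (coeff_zero a) ha
    · intro a ha; exact absurd (coeff_zero a) ha
    · intro a ha; exact absurd (coeff_zero a) ha
    · intro k a ha; exact absurd (coeff_zero a) ha
    · intro a; rw [coeff_zero]; exact AddSubgroup.zero_mem _
    · intro k a; rw [coeff_zero]; exact AddSubgroup.zero_mem _
  | succ m ih =>
    intro c g hg hc
    obtain ⟨g', r, u, e1, h1, h2, h3, h4, h5, h6, h7⟩ := RED.step hS m (hall m) c g hg hc
    obtain ⟨v, r', e2, k1, k2, k3, k4, k5, k6⟩ := ih (c + 1) g' h3 h6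
    have hcm : c + 1 + m = c + (m + 1) := by ring
    rw [hcm] at k5 k6
    have hmono : S (c + 1) ≤ S (c + (m + 1)) := hS.mono _ _ (by omega)
    have hne : ∀ a, coeff a (r + r') ≠ 0 → coeff a r ≠ 0 ∨ coeff a r' ≠ 0 := by
      intro a ha
      by_contra hcon
      push Not at hcon
      exact ha (by rw [coeff_add, hcon.1, hcon.2, add_zero])
    refine ⟨fun k => u k + v k, r + r', ?_, ?_, ?_, ?_, ?_, ?_, ?_⟩
    · calc g = r + g' + ∑ k, Dop P k (u k) := e1
        _ = r + (r' + ∑ k, Dop P k (v k)) + ∑ k, Dop P k (u k) := by rw [← e2]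
        _ = _ := by
          simp only [map_add, Finset.sum_add_distrib]
          ring
    · intro a ha
      rcases hne a ha with h | h
      · exact h1 a h
      · exact k1 a h
    · intro a ha
      rcases hne a ha with h | h
      · exact ⟨m + 1, h2 a h⟩
      · exact k2 a h
    · intro a ha
      rcases hne a ha with h | h
      · exact (h2 a h).le
      · exact (k3 a h).trans (Nat.mul_le_mul_left _ (by omega))
    · intro k a ha
      rw [coeff_add] at ha
      by_cases h : coeff a (u k) = 0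
      · rw [h, zero_add] at ha
        exact k4 k a ha
      · exact ⟨m, h4 k a h⟩
    · intro a
      rw [coeff_add]
      exact AddSubgroup.add_mem _ (hmono (h5 a)) (k5 a)
    · intro k a
      rw [coeff_add]
      exact AddSubgroup.add_mem _ (hmono (h7 k a)) (k6 k a)

end Pool.CUBE
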